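import Mathlib

/-!
# LGO/PS/E6 (engine 6): a measure for `c λ - 2 π i θ`, `e ^ λ` algebraic and not a root of unity: definitions

STRATEGY (Gelfond, Schneider).  Let `al = e ^ λ`, `be = c / θ`; if `c λ - 2 π i θ` is very small then `λ be` is very near `2 π i`.
For an integral polynomial `P = ∑ p i j X ^ i Y ^ j` (`i < L0`, `j < L1`) let `f(z) = P(z, e ^ (λ z))` (`fn`); at the points
`z = s + s' be` it is nearly `P(s + s' be, al ^ s)` (`val`), an algebraic number.  Siegel's lemma (`Aux6`) gives `P` such that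
`val s s' = 0` for `s, s' < S`; by the Schwarz lemma for approximate zeros (`Sch`) and Liouville (`Liou`) the values vanish
also for `s, s' < S₁`, and once more for `s, s' < S₂` (`Step`); `S₂ ≥ L0, L1` and this is impossible (`Zero`).
Parameters: `L1 = m ^ 8`, `S = m ^ 14`, `L0 = m ^ 22`, `S₁ = m ^ 17`, `S₂ = m ^ 23`, `m ~ C M` (`Num`).
-/

namespace Pool.Agent.LGO.PS.E6

/-- `P(s + s' be, al ^ s)` -/
noncomputable def val (be al : ℂ) (L0 L1 : ℕ) (p : ℕ → ℕ → ℤ) (s s' : ℕ) : ℂ :=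
  ∑ i ∈ Finset.range L0, ∑ j ∈ Finset.range L1, (p i j : ℂ) * ((s : ℂ) + s' * be) ^ i * al ^ (s * j)

/-- `P(z, e ^ (λ z))` -/
noncomputable def fn (lam : ℂ) (L0 L1 : ℕ) (p : ℕ → ℕ → ℤ) (z : ℂ) : ℂ :=
  ∑ i ∈ Finset.range L0, ∑ j ∈ Finset.range L1, (p i j : ℂ) * z ^ i * Complex.exp (j * (lam * z))

/-- the logarithm of a bound for the coefficients of `P` from Siegel's lemma is `log (5 L0 L1) + H6` -/
noncomputable def H6 (V V0 : ℝ) (L0 L1 S : ℕ) : ℝ := L0 * (2 * V + Real.log (2 * S)) + 2 * S * L1 * V0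

/-- logarithm of a common bound (size of the values and growth of the function) -/
noncomputable def G6 (V V0 b l P : ℝ) (L0 L1 S : ℕ) : ℝ :=
  Real.log P + Real.log (L0 * L1) + H6 V V0 L0 L1 S + L0 * Real.log (14 * b * S) + 14 * b * L1 * l * S

end Pool.Agent.LGO.PS.E6
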