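import Mathlib
import Pool.Agent.LGO.PS.E6.Defs

/-!
# LGO/PS/E6: choice of the parameters

PROOF.  `m = ⌈κ M⌉₊` with a large constant `κ` (depending on `C0`), so `κ M ≤ m ≤ κ M + 1 ≤ 2 κ M`; `C = 2 κ` (as a natural number).
`L1 = m ^ 8`, `S = m ^ 14`, `L0 = m ^ 22`, `S₁ = m ^ 17`, `S₂ = m ^ 23`, `P = 5 L0 L1 exp (H6 V V0 L0 L1 S)`.  `log m ≤ m`, `M ≤ m`, `M ^ 2 ≤ m ^ 2`, and
`C0, 1 ≤ m / (κ/2)`-type bounds for all constants.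
First: `4 C0 M m ^ 28 ≤ m ^ 30` because `4 C0 M ≤ m`.
`H6 V V0 L0 L1 S' = m ^ 22 (2 V + log (2 S')) + 2 S' m ^ 8 V0` with `V ≤ C0 M ^ 2`: at most `C' (m ^ 22 m ^ 3 / κ + S' m ^ 8)`; the same for `log P`,
`L0 log (14 b S')`, `14 b L1 l S'`.  So `G6 ≤ C'' (m ^ 25 + m ^ 8 S')` with `C''` depending on `C0` only: `≤ 2 C'' m ^ 25` for `S' = S₁`,
`≤ 2 C'' m ^ 31` for `S' = S₂`.  `2 C0 M + 2 ≤ 4 C0 M ≤ (4 C0 / κ) m`, so `(2 D + 2) G + 4 ≤ m ^ 27 ≤ S ^ 2 = m ^ 28`, and `≤ m ^ 33 ≤ S₁ ^ 2 = m ^ 34` in the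
second case.  Error exponents: `(2 D + 8) G ≤ m ^ 34`, `S ^ 2 (log (16 b S') + C0 S) ≤ m ^ 28 m ^ 16`, in the second case `m ^ 34 m ^ 19`: at most `m ^ 54`.
-/

namespace Pool.Agent.LGO.PS.E6

private theorem Num_log {x : ℝ} (hx : 2 ≤ x) {y : ℝ} (hy : 0 < y) {n : ℕ} (h : y ≤ x ^ n) :
    Real.log y ≤ n * x := by
  have h1 := Real.log_le_log hy h
  rw [Real.log_pow] at h1
  have h2 := Real.log_le_self (show (0 : ℝ) ≤ x by linarith)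
  have h3 : (n : ℝ) * Real.log x ≤ n * x := mul_le_mul_of_nonneg_left h2 (Nat.cast_nonneg n)
  linarith

private theorem Num_H {C0 M V V0 : ℝ} (hC0 : 1 ≤ C0) (hM : 0 ≤ M) (hV : V ≤ C0 * M ^ 2)
    (hV0' : V0 ≤ C0) {m k : ℕ} (hx : 2 ≤ (m : ℝ)) (hMx : M ≤ m) (hk : k ≤ 23) :
    H6 V V0 (m ^ 22) (m ^ 8) (m ^ k) ≤ 26 * (C0 * (m : ℝ) ^ 24) + 2 * (C0 * (m : ℝ) ^ (8 + k)) := by
  unfold H6
  push_cast
  set x : ℝ := (m : ℝ) with hxd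
  have hx0 : (0 : ℝ) < x := by linarith
  have hx1 : (1 : ℝ) ≤ x := by linarith
  have hlog : Real.log (2 * x ^ k) ≤ 24 * x := by
    have h1 : (2 : ℝ) * x ^ k ≤ x ^ 24 := by
      have h2 : x ^ k ≤ x ^ 23 := pow_le_pow_right₀ hx1 hk
      have h3 : x ^ 24 = x * x ^ 23 := by ring
      rw [h3]
      exact mul_le_mul hx h2 (by positivity) hx0.le
    have h4 := Num_log hx (by positivity) h1
    push_cast at h4
    exact h4
  have hVx : V ≤ C0 * x ^ 2 := by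
    have h1 : M ^ 2 ≤ x ^ 2 := pow_le_pow_left₀ hM hMx 2
    have h2 : C0 * M ^ 2 ≤ C0 * x ^ 2 := mul_le_mul_of_nonneg_left h1 (by linarith)
    linarith
  have hxx : x ≤ C0 * x ^ 2 := by
    have h1 : x * 1 ≤ x * x := mul_le_mul_of_nonneg_left hx1 hx0.le
    have h2 : 1 * x ^ 2 ≤ C0 * x ^ 2 := mul_le_mul_of_nonneg_right hC0 (by positivity)
    nlinarith
  have h1 : 2 * V + Real.log (2 * x ^ k) ≤ 26 * (C0 * x ^ 2) := by linarith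
  have h2 : x ^ 22 * (2 * V + Real.log (2 * x ^ k)) ≤ x ^ 22 * (26 * (C0 * x ^ 2)) :=
    mul_le_mul_of_nonneg_left h1 (by positivity)
  have h3 : 2 * x ^ k * x ^ 8 * V0 ≤ 2 * x ^ k * x ^ 8 * C0 :=
    mul_le_mul_of_nonneg_left hV0' (by positivity)
  have h4 : x ^ 22 * (26 * (C0 * x ^ 2)) = 26 * (C0 * x ^ 24) := by ring
  have h5 : 2 * x ^ k * x ^ 8 * C0 = 2 * (C0 * x ^ (8 + k)) := by ring
  linarith

private theorem Num_G {C0 M V V0 b l : ℝ} (hC0 : 1 ≤ C0) (hM : 0 ≤ M) (hV : V ≤ C0 * M ^ 2)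
    (hV0' : V0 ≤ C0) (hb : 1 ≤ b) (hb' : b ≤ C0) (hl' : l ≤ C0) {m k : ℕ}
    (hx : 2 ≤ (m : ℝ)) (hMx : M ≤ m) (hCx : 14 * C0 ≤ m) (hk : k ≤ 23) (hk' : 17 ≤ k) :
    G6 V V0 b l (5 * (m ^ 22 : ℕ) * (m ^ 8 : ℕ) * Real.exp (H6 V V0 (m ^ 22) (m ^ 8) (m ^ 14)))
      (m ^ 22) (m ^ 8) (m ^ k) ≤ 157 * (C0 ^ 2 * (m : ℝ) ^ (8 + k)) := by
  have hH := Num_H hC0 hM hV hV0' hx hMx hk
  have hH' := Num_H hC0 hM hV hV0' hx hMx (show 14 ≤ 23 by norm_num)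
  unfold G6
  have hP : Real.log (5 * (m ^ 22 : ℕ) * (m ^ 8 : ℕ) *
      Real.exp (H6 V V0 (m ^ 22) (m ^ 8) (m ^ 14))) =
      Real.log (5 * (m ^ 22 : ℕ) * (m ^ 8 : ℕ)) + H6 V V0 (m ^ 22) (m ^ 8) (m ^ 14) := by
    have hm0 : (m : ℝ) ≠ 0 := by linarith
    rw [Real.log_mul (by push_cast; positivity) (Real.exp_pos _).ne', Real.log_exp]
  rw [hP]
  generalize H6 V V0 (m ^ 22) (m ^ 8) (m ^ k) = h1 at hH ⊢
  generalize H6 V V0 (m ^ 22) (m ^ 8) (m ^ 14) = h2 at hH' ⊢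
  push_cast
  set x : ℝ := (m : ℝ) with hxd
  have hx0 : (0 : ℝ) < x := by linarith
  have hx1 : (1 : ℝ) ≤ x := by linarith
  have hC0' : (0 : ℝ) < C0 := by linarith
  have hb0 : (0 : ℝ) < b := by linarith
  have l1 : Real.log (5 * x ^ 22 * x ^ 8) ≤ 33 * x := by
    have h3 : 5 * x ^ 22 * x ^ 8 ≤ x ^ 33 := by
      have h4 : (5 : ℝ) ≤ x ^ 3 := by
        have h5 := pow_le_pow_left₀ (show (0 : ℝ) ≤ 2 by norm_num) hx 3
        linarith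
      have h6 : 5 * x ^ 30 ≤ x ^ 3 * x ^ 30 := mul_le_mul_of_nonneg_right h4 (by positivity)
      have h7 : 5 * x ^ 22 * x ^ 8 = 5 * x ^ 30 := by ring
      have h8 : x ^ 33 = x ^ 3 * x ^ 30 := by ring
      rw [h7, h8]
      exact h6
    have h9 := Num_log hx (by positivity) h3
    push_cast at h9
    exact h9
  have l2 : Real.log (x ^ 22 * x ^ 8) ≤ 30 * x := by
    have h3 : x ^ 22 * x ^ 8 ≤ x ^ 30 := le_of_eq (by ring)
    have h9 := Num_log hx (by positivity) h3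
    push_cast at h9
    exact h9
  have l3 : Real.log (14 * b * x ^ k) ≤ 24 * x := by
    have h3 : 14 * b * x ^ k ≤ x ^ 24 := by
      have h4 : 14 * b ≤ x := by linarith
      have h5 : x ^ k ≤ x ^ 23 := pow_le_pow_right₀ hx1 hk
      have h6 : x ^ 24 = x * x ^ 23 := by ring
      rw [h6]
      exact mul_le_mul h4 h5 (by positivity) hx0.le
    have h9 := Num_log hx (by positivity) h3
    push_cast at h9
    exact h9
  have l4 : x ^ 22 * Real.log (14 * b * x ^ k) ≤ 24 * x ^ 23 := by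
    have h3 := mul_le_mul_of_nonneg_left l3 (show (0 : ℝ) ≤ x ^ 22 by positivity)
    have h4 : x ^ 22 * (24 * x) = 24 * x ^ 23 := by ring
    linarith
  have l5 : 14 * b * x ^ 8 * l * x ^ k ≤ 14 * (C0 ^ 2 * x ^ (8 + k)) := by
    have h3 : b * l ≤ C0 * C0 := by
      have h4 : b * l ≤ b * C0 := mul_le_mul_of_nonneg_left hl' hb0.le
      have h5 : b * C0 ≤ C0 * C0 := mul_le_mul_of_nonneg_right hb' hC0'.le
      linarith
    have h6 := mul_le_mul_of_nonneg_left h3 (show (0 : ℝ) ≤ 14 * x ^ (8 + k) by positivity)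
    have h7 : 14 * x ^ (8 + k) * (b * l) = 14 * b * x ^ 8 * l * x ^ k := by ring
    have h8 : 14 * x ^ (8 + k) * (C0 * C0) = 14 * (C0 ^ 2 * x ^ (8 + k)) := by ring
    linarith
  -- comparison of the monomials
  have cA : C0 ≤ C0 ^ 2 := by nlinarith
  have c0 : ∀ n ≤ 8 + k, ∀ c : ℝ, 0 ≤ c → c ≤ C0 ^ 2 → c * x ^ n ≤ C0 ^ 2 * x ^ (8 + k) := by
    intro n hn c hc hc'
    exact mul_le_mul hc' (pow_le_pow_right₀ hx1 hn) (by positivity) (by positivity)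
  have c1 := c0 1 (by omega) 1 (by norm_num) (by linarith)
  have c2 := c0 24 (by omega) C0 hC0'.le cA
  have c3 := c0 23 (by omega) 1 (by norm_num) (by linarith)
  have c4 := c0 (8 + k) le_rfl C0 hC0'.le cA
  have c5 := c0 (8 + 14) (by omega) C0 hC0'.le cA
  rw [one_mul, pow_one] at c1
  rw [one_mul] at c3
  linarith

private theorem Num_main {C0 M V V0 b l : ℝ} (hC0 : 1 ≤ C0) (hM : 2 ≤ M) (hV : V ≤ C0 * M ^ 2)
    (hV0' : V0 ≤ C0) (hb : 1 ≤ b) (hb' : b ≤ C0) (hl' : l ≤ C0) {m k j : ℕ}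
    (hMx : 6 * (C0 * M) ≤ m) (hCx : 200 * C0 ^ 2 ≤ m) (hk : k ≤ 23) (hk' : 17 ≤ k)
    (hj : j ≤ 17) (hjk : 10 + k ≤ 2 * j) :
    (2 * (C0 * M) + 2) * G6 V V0 b l
        (5 * (m ^ 22 : ℕ) * (m ^ 8 : ℕ) * Real.exp (H6 V V0 (m ^ 22) (m ^ 8) (m ^ 14)))
        (m ^ 22) (m ^ 8) (m ^ k) + 4 ≤ ((m ^ j : ℕ) : ℝ) ^ 2 ∧
      (2 * (C0 * M) + 8) * G6 V V0 b l
        (5 * (m ^ 22 : ℕ) * (m ^ 8 : ℕ) * Real.exp (H6 V V0 (m ^ 22) (m ^ 8) (m ^ 14)))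
        (m ^ 22) (m ^ 8) (m ^ k) +
        ((m ^ j : ℕ) : ℝ) ^ 2 * (Real.log (16 * b * ((m ^ k : ℕ) : ℝ)) +
          C0 * ((m ^ j : ℕ) : ℝ)) + 6 ≤ (m : ℝ) ^ 54 ∧ C0 * ((m ^ j : ℕ) : ℝ) ≤ (m : ℝ) ^ 54 := by
  have cA : C0 ≤ C0 ^ 2 := by nlinarith
  have hCM : M ≤ C0 * M := by nlinarith
  have hG := Num_G hC0 (by linarith) hV hV0' hb hb' hl' (m := m) (k := k) (by linarith)
    (by linarith) (by linarith) hk hk'
  generalize G6 V V0 b l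
    (5 * (m ^ 22 : ℕ) * (m ^ 8 : ℕ) * Real.exp (H6 V V0 (m ^ 22) (m ^ 8) (m ^ 14)))
    (m ^ 22) (m ^ 8) (m ^ k) = G at hG ⊢
  push_cast
  set x : ℝ := (m : ℝ) with hxd
  have hx : (2 : ℝ) ≤ x := by linarith
  have hx0 : (0 : ℝ) < x := by linarith
  have hx1 : (1 : ℝ) ≤ x := by linarith
  have hC0' : (0 : ℝ) < C0 := by linarith
  have hb0 : (0 : ℝ) < b := by linarith
  -- the bound of `x G`
  have g1 : x * (157 * (C0 ^ 2 * x ^ (8 + k))) + 4 ≤ x ^ (10 + k) := by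
    have h1 : (1 : ℝ) ≤ x ^ (9 + k) := one_le_pow₀ hx1
    have h2 : x * (157 * (C0 ^ 2 * x ^ (8 + k))) = 157 * C0 ^ 2 * x ^ (9 + k) := by ring
    have h3 : x ^ (10 + k) = x * x ^ (9 + k) := by ring
    have h4 : 4 * 1 ≤ 4 * C0 ^ 2 * x ^ (9 + k) := by
      have h5 : (1 : ℝ) ≤ C0 ^ 2 := by linarith
      nlinarith
    have h6 : 161 * C0 ^ 2 * x ^ (9 + k) ≤ x * x ^ (9 + k) :=
      mul_le_mul_of_nonneg_right (by linarith) (by positivity)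
    rw [h2, h3]
    linarith
  have g0 : 0 ≤ 157 * (C0 ^ 2 * x ^ (8 + k)) := by positivity
  have g2 : ∀ c : ℝ, 0 ≤ c → c ≤ x → c * G ≤ x * (157 * (C0 ^ 2 * x ^ (8 + k))) := by
    intro c hc hc'
    exact (mul_le_mul_of_nonneg_left hG hc).trans (mul_le_mul_of_nonneg_right hc' g0)
  have g3 := g2 (2 * (C0 * M) + 2) (by linarith) (by linarith)
  have g4 := g2 (2 * (C0 * M) + 8) (by linarith) (by linarith)
  have hS : (x ^ j) ^ 2 = x ^ (2 * j) := by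
    rw [← pow_mul, mul_comm]
  rw [hS]
  refine ⟨?_, ?_, ?_⟩
  · have h1 : x ^ (10 + k) ≤ x ^ (2 * j) := pow_le_pow_right₀ hx1 hjk
    linarith
  · have h1 : x ^ (10 + k) ≤ x ^ 52 := pow_le_pow_right₀ hx1 (by omega)
    have h2 : x ^ (2 * j) ≤ x ^ 34 := pow_le_pow_right₀ hx1 (by omega)
    have h3 : x ^ j ≤ x ^ 17 := pow_le_pow_right₀ hx1 hj
    have l3 : Real.log (16 * b * x ^ k) ≤ 24 * x := by
      have h3 : 16 * b * x ^ k ≤ x ^ 24 := by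
        have h4 : 16 * b ≤ x := by linarith
        have h5 : x ^ k ≤ x ^ 23 := pow_le_pow_right₀ hx1 hk
        have h6 : x ^ 24 = x * x ^ 23 := by ring
        rw [h6]
        exact mul_le_mul h4 h5 (by positivity) hx0.le
      have h9 := Num_log hx (by positivity) h3
      push_cast at h9
      exact h9
    have h4 : Real.log (16 * b * x ^ k) + C0 * x ^ j ≤ x ^ 18 := by
      have h5 : C0 * x ^ j ≤ C0 * x ^ 17 := mul_le_mul_of_nonneg_left h3 hC0'.le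
      have h6 : x ≤ x ^ 17 := by
        have h7 := pow_le_pow_right₀ hx1 (show 1 ≤ 17 by norm_num)
        rwa [pow_one] at h7
      have h8 : (24 + C0) * x ^ 17 ≤ x * x ^ 17 :=
        mul_le_mul_of_nonneg_right (by linarith) (by positivity)
      have h9 : x ^ 18 = x * x ^ 17 := by ring
      rw [h9]
      linarith
    have h5 : x ^ (2 * j) * (Real.log (16 * b * x ^ k) + C0 * x ^ j) ≤ x ^ 34 * x ^ 18 :=
      (mul_le_mul_of_nonneg_left h4 (by positivity)).trans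
        (mul_le_mul_of_nonneg_right h2 (by positivity))
    have h6 : x ^ 34 * x ^ 18 = x ^ 52 := by ring
    have h7 : x ^ 54 = x ^ 2 * x ^ 52 := by ring
    have h8 : (4 : ℝ) ≤ x ^ 2 := by nlinarith
    have h9 : 4 * x ^ 52 ≤ x ^ 2 * x ^ 52 := mul_le_mul_of_nonneg_right h8 (by positivity)
    have h10 : (1 : ℝ) ≤ x ^ 52 := one_le_pow₀ hx1
    linarith
  · have h3 : x ^ j ≤ x ^ 53 := pow_le_pow_right₀ hx1 (by omega)
    have h4 : x ^ 54 = x * x ^ 53 := by ring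
    rw [h4]
    exact mul_le_mul (by linarith) h3 (by positivity) hx0.le

theorem num6 {C0 : ℝ} (hC0 : 1 ≤ C0) : ∃ C : ℕ, 1 ≤ C ∧ ∀ M V V0 b l : ℝ, 2 ≤ M → 0 ≤ V → V ≤ C0 * M ^ 2 →
    0 ≤ V0 → V0 ≤ C0 → 1 ≤ b → b ≤ C0 → 0 ≤ l → l ≤ C0 → ∃ m : ℕ, 2 ≤ m ∧ (m : ℝ) ≤ C * M ∧ M ≤ m ∧
      4 * (C0 * M) * ((m : ℝ) ^ 14) ^ 2 ≤ (m : ℝ) ^ 22 * (m : ℝ) ^ 8 ∧
      (∀ S S' : ℕ, (S = m ^ 14 ∧ S' = m ^ 17) ∨ (S = m ^ 17 ∧ S' = m ^ 23) →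
        (2 * (C0 * M) + 2) * G6 V V0 b l
            (5 * (m ^ 22 : ℕ) * (m ^ 8 : ℕ) * Real.exp (H6 V V0 (m ^ 22) (m ^ 8) (m ^ 14))) (m ^ 22) (m ^ 8) S' + 4 ≤ (S : ℝ) ^ 2 ∧
        (2 * (C0 * M) + 8) * G6 V V0 b l
            (5 * (m ^ 22 : ℕ) * (m ^ 8 : ℕ) * Real.exp (H6 V V0 (m ^ 22) (m ^ 8) (m ^ 14))) (m ^ 22) (m ^ 8) S' +
          (S : ℝ) ^ 2 * (Real.log (16 * b * S') + C0 * S) + 6 ≤ (m : ℝ) ^ 54 ∧ C0 * S ≤ (m : ℝ) ^ 54) := by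
  have hK := Nat.le_ceil (200 * C0 ^ 2)
  set K : ℕ := ⌈200 * C0 ^ 2⌉₊ with hKd
  have cA : C0 ≤ C0 ^ 2 := by nlinarith
  have hK200 : (200 : ℝ) ≤ K := by linarith
  have hK1 : 1 ≤ K := by
    have h1 : (1 : ℝ) ≤ K := by linarith
    exact_mod_cast h1
  refine ⟨2 * K, by omega, fun M V V0 b l hM hV0 hV hV00 hV0' hb hb' hl0 hl' => ?_⟩
  have hm := Nat.le_ceil ((K : ℝ) * M)
  have hm' := Nat.ceil_lt_add_one (show (0 : ℝ) ≤ (K : ℝ) * M by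
    have h1 : (0 : ℝ) ≤ K := by linarith
    have h2 : (0 : ℝ) ≤ M := by linarith
    exact mul_nonneg h1 h2)
  set m : ℕ := ⌈(K : ℝ) * M⌉₊ with hmd
  have hKM : (K : ℝ) * 2 ≤ K * M := mul_le_mul_of_nonneg_left hM (by linarith)
  have hKM' : 200 * M ≤ (K : ℝ) * M := mul_le_mul_of_nonneg_right hK200 (by linarith)
  have hKC : 200 * C0 * M ≤ (K : ℝ) * M := mul_le_mul_of_nonneg_right (by linarith) (by linarith)
  have hx2 : (2 : ℝ) ≤ m := by linarith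
  have hMx : 6 * (C0 * M) ≤ m := by
    have h1 : 0 ≤ C0 * M := mul_nonneg (by linarith) (by linarith)
    linarith
  have hCx : 200 * C0 ^ 2 ≤ m := by linarith
  refine ⟨m, by exact_mod_cast hx2, ?_, by linarith, ?_, ?_⟩
  · push_cast
    linarith
  · have h1 : 4 * (C0 * M) ≤ (m : ℝ) := by
      have h1 : 0 ≤ C0 * M := mul_nonneg (by linarith) (by linarith)
      linarith
    have h2 : (m : ℝ) ≤ (m : ℝ) ^ 2 := by nlinarith
    have h3 := mul_le_mul_of_nonneg_right (h1.trans h2)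
      (show (0 : ℝ) ≤ ((m : ℝ) ^ 14) ^ 2 by positivity)
    have h4 : (m : ℝ) ^ 2 * ((m : ℝ) ^ 14) ^ 2 = (m : ℝ) ^ 22 * (m : ℝ) ^ 8 := by ring
    linarith
  · rintro S S' (⟨rfl, rfl⟩ | ⟨rfl, rfl⟩)
    · exact Num_main hC0 hM hV hV0' hb hb' hl' hMx hCx (by norm_num) (by norm_num)
        (by norm_num) (by norm_num)
    · exact Num_main hC0 hM hV hV0' hb hb' hl' hMx hCx (by norm_num) (by norm_num)
        (by norm_num) (by norm_num)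

end Pool.Agent.LGO.PS.E6
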