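import Mathlib
import Pool.Agent.LGO.Mul.Ht
import Pool.Agent.LGO.Q.Quad

/-!
# LGO/PS/E6: the points `a + b be` are separated

PROOF.  `al = e ^ λ` is algebraic and not a root of unity, so `λ ≠ 0` (`e ^ 0 = 1`).  LIOUVILLE: there is `C₁ ≥ 1` with
`‖al ^ a - 1‖ ≥ e ^ (-(C₁ a))` for all natural numbers `a ≥ 1`: `K₀ = ℚ⟮al⟯`, `Quad_bd_alg` gives `Bd K₀ B al`, so
`Bd K₀ ((B + 1) (a + 1)) (al ^ a - 1)` (`Bd.pow`, `Bd.add`; or directly), it is not `0`, `Bd.lower`.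
Let `x = a + b be`, `ε = λ be - 2 π i`, `‖ε‖ ≤ e ^ (-(C S))`.
If `a = 0`: `b ≠ 0`, `‖x‖ ≥ ‖be‖ ≥ (2 π - ‖ε‖) / ‖λ‖ ≥ 1 / ‖λ‖`.
If `a ≠ 0`: we may assume `a > 0` (replace `(a, b)` by `(-a, -b)`).  `λ x = λ a + 2 π i b + b ε`, so `e ^ (λ x - b ε) = al ^ a`.  If
`‖λ x‖ ≤ 1/2` (`‖b ε‖ ≤ S e ^ (-(C S)) ≤ 1/2`): `e ^ (-(C₁ S)) ≤ ‖al ^ a - 1‖ ≤ 2 (‖λ‖ ‖x‖ + S e ^ (-(C S)))`, and
`2 S e ^ (-(C S)) ≤ e ^ (-(C₁ S)) / 2` if `C ≥ C₁ + 3`, so `‖x‖ ≥ e ^ (-(C₁ S)) / (4 ‖λ‖) ≥ e ^ (-(C S))` for `C` large.  If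
`‖λ x‖ > 1/2`: clear.
-/

namespace Pool.Agent.LGO.PS.E6

open Pool.Agent.LGO

private theorem sep6_bd {K : IntermediateField ℚ ℂ} {B : ℝ} (hB : 0 ≤ B) {al : ℂ} (h : Bd K B al) (a : ℕ) :
    Bd K ((B + 1) * (a + 1)) (al ^ a - 1) := by
  have hexp : Real.exp (B * a) ≤ Real.exp ((B + 1) * (a + 1)) := by
    apply Real.exp_le_exp.2
    have : (0 : ℝ) ≤ a := Nat.cast_nonneg a
    nlinarith
  refine ⟨K.sub_mem (K.pow_mem h.mem a) K.one_mem, ?_, ?_⟩
  · obtain ⟨n, hn, hnB, hint⟩ := h.den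
    refine ⟨n ^ a, pow_pos hn a, ?_, ?_⟩
    · have h1 : ((n ^ a : ℕ) : ℝ) ≤ Real.exp (B * a) := by
        rw [Nat.cast_pow, mul_comm, Real.exp_nat_mul]
        exact pow_le_pow_left₀ (Nat.cast_nonneg n) hnB a
      exact h1.trans hexp
    · have e : ((n ^ a : ℕ) : ℂ) * (al ^ a - 1) = ((n : ℂ) * al) ^ a - (n : ℂ) ^ a := by
        push_cast
        rw [mul_pow]
        ring
      rw [e]
      have hn' : IsIntegral ℤ ((n : ℂ)) := by
        have := isIntegral_algebraMap (R := ℤ) (A := ℂ) (x := (n : ℤ))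
        simpa using this
      exact (hint.pow a).sub (hn'.pow a)
  · intro σ
    have e : σ ⟨al ^ a - 1, K.sub_mem (K.pow_mem h.mem a) K.one_mem⟩ = (σ ⟨al, h.mem⟩) ^ a - 1 := by
      have e1 : (⟨al ^ a - 1, K.sub_mem (K.pow_mem h.mem a) K.one_mem⟩ : K) = (⟨al, h.mem⟩ : K) ^ a - 1 := by
        apply Subtype.ext
        push_cast
        rfl
      rw [e1, map_sub, map_pow, map_one]
    have h1 : ‖(σ ⟨al, h.mem⟩) ^ a - 1‖ ≤ Real.exp (B * a) + 1 := by
      refine (norm_sub_le _ _).trans ?_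
      rw [norm_pow, norm_one, mul_comm, Real.exp_nat_mul]
      have := pow_le_pow_left₀ (norm_nonneg _) (h.house σ) a
      linarith
    have h2 : Real.exp (B * a) + 1 ≤ Real.exp ((B + 1) * (a + 1)) := by
      have h3 : 1 ≤ Real.exp (B * a) := Real.one_le_exp (by positivity)
      have h4 : Real.exp (B * a + 1) ≤ Real.exp ((B + 1) * (a + 1)) := by
        apply Real.exp_le_exp.2
        have : (0 : ℝ) ≤ a := Nat.cast_nonneg a
        nlinarith
      have h5 : Real.exp (B * a + 1) = Real.exp (B * a) * Real.exp 1 := Real.exp_add _ _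
      have h6 : (2 : ℝ) ≤ Real.exp 1 := by
        have := Real.add_one_le_exp (1 : ℝ)
        linarith
      nlinarith
    rw [e]
    exact h1.trans h2

private theorem sep6_liou {al : ℂ} (hal : IsAlgebraic ℚ al) (hroot : ∀ n : ℕ, 0 < n → al ^ n ≠ 1) :
    ∃ C : ℝ, 1 ≤ C ∧ ∀ a : ℕ, 1 ≤ a → Real.exp (-(C * a)) ≤ ‖al ^ a - 1‖ := by
  obtain ⟨B, hB, hBd⟩ := Quad_bd_alg hal
  have : FiniteDimensional ℚ (IntermediateField.adjoin ℚ {al}) :=
    IntermediateField.adjoin.finiteDimensional hal.isIntegral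
  set K := IntermediateField.adjoin ℚ {al} with hK
  have hb := hBd K (IntermediateField.mem_adjoin_simple_self ℚ al)
  set D : ℝ := (Module.finrank ℚ K : ℝ) with hD
  have hD1 : 1 ≤ D := by
    have : 1 ≤ Module.finrank ℚ K := Module.finrank_pos
    rw [hD]
    exact_mod_cast this
  refine ⟨4 * D * (B + 1), by nlinarith, fun a ha => ?_⟩
  have ha1 : (1 : ℝ) ≤ a := by exact_mod_cast ha
  have h1 := sep6_bd hB hb a
  have h2 := Bd.lower (D := D) le_rfl (by positivity) h1 (sub_ne_zero.2 (hroot a ha)) (algebraMap K ℂ)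
  have h3 : (algebraMap K ℂ) ⟨al ^ a - 1, h1.mem⟩ = al ^ a - 1 := rfl
  rw [h3] at h2
  refine le_trans (Real.exp_le_exp.2 ?_) h2
  have h4 : 2 * D * ((B + 1) * (a + 1)) ≤ 4 * D * (B + 1) * a := by
    have h5 : 0 ≤ 2 * D * (B + 1) := by positivity
    nlinarith
  linarith

private theorem sep6_pos {lam : ℂ} {C₁ C : ℝ} (hlam : lam ≠ 0) (hC₁ : 1 ≤ C₁)
    (hL : ∀ a : ℕ, 1 ≤ a → Real.exp (-(C₁ * a)) ≤ ‖Complex.exp lam ^ a - 1‖)
    (hC : C₁ + 4 ≤ C) (hC2 : 4 * ‖lam‖ ≤ Real.exp (C - C₁)) (S : ℕ) (be : ℂ) (hS : 1 ≤ S)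
    (he : ‖lam * be - 2 * Real.pi * Complex.I‖ ≤ Real.exp (-(C * S))) (a : ℕ) (b : ℤ) (ha : 1 ≤ a) (haS : a ≤ S)
    (hb : |b| ≤ S) : Real.exp (-(C * S)) ≤ ‖(a : ℂ) + b * be‖ := by
  have hS1 : (1 : ℝ) ≤ S := by exact_mod_cast hS
  have hlp : 0 < ‖lam‖ := norm_pos_iff.2 hlam
  set ε := lam * be - 2 * Real.pi * Complex.I with hε
  set x := (a : ℂ) + b * be with hx
  have hkey : Complex.exp (lam * x - b * ε) = Complex.exp lam ^ a := by
    have e : lam * x - b * ε = (a : ℂ) * lam + (b : ℤ) * (2 * Real.pi * Complex.I) := by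
      rw [hx, hε]
      ring
    rw [e, Complex.exp_add, Complex.exp_int_mul_two_pi_mul_I, mul_one, Complex.exp_nat_mul]
  have hbR : |(b : ℝ)| ≤ S := by exact_mod_cast hb
  have hbe : ‖(b : ℂ) * ε‖ ≤ S * Real.exp (-(C * S)) := by
    rw [norm_mul, Complex.norm_intCast]
    exact mul_le_mul hbR he (norm_nonneg _) (by positivity)
  -- S e^{-C S} ≤ e^{-C₁ S}/8
  have hsm : 8 * (S * Real.exp (-(C * S))) ≤ Real.exp (-(C₁ * S)) := by
    have h1 : Real.exp (-(C * S)) ≤ Real.exp (-(C₁ * S)) * Real.exp (-(4 * S)) := by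
      rw [← Real.exp_add]
      apply Real.exp_le_exp.2
      nlinarith
    have h2 : 8 * (S : ℝ) ≤ Real.exp (4 * S) := by
      have h3 : Real.exp (4 * S) = Real.exp S * Real.exp S * (Real.exp S * Real.exp S) := by
        rw [← Real.exp_add, ← Real.exp_add]
        ring_nf
      have h4 : (S : ℝ) + 1 ≤ Real.exp S := Real.add_one_le_exp _
      have h5 : 2 ≤ Real.exp S := by linarith
      have h6 : 2 * S ≤ Real.exp S * Real.exp S := by nlinarith
      have h7 : 4 ≤ Real.exp S * Real.exp S := by nlinarith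
      rw [h3]
      calc 8 * (S : ℝ) = (2 * S) * 4 := by ring
        _ ≤ (Real.exp S * Real.exp S) * (Real.exp S * Real.exp S) :=
          mul_le_mul h6 h7 (by norm_num) (by positivity)
    have h8 : Real.exp (-(4 * S)) * (8 * S) ≤ 1 := by
      calc Real.exp (-(4 * S)) * (8 * S) ≤ Real.exp (-(4 * S)) * Real.exp (4 * S) :=
            mul_le_mul_of_nonneg_left h2 (Real.exp_pos _).le
        _ = 1 := by rw [← Real.exp_add]; simp
    calc 8 * (S * Real.exp (-(C * S))) = (8 * S) * Real.exp (-(C * S)) := by ring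
      _ ≤ (8 * S) * (Real.exp (-(C₁ * S)) * Real.exp (-(4 * S))) := by gcongr
      _ = Real.exp (-(C₁ * S)) * (Real.exp (-(4 * S)) * (8 * S)) := by ring
      _ ≤ Real.exp (-(C₁ * S)) * 1 := mul_le_mul_of_nonneg_left h8 (Real.exp_pos _).le
      _ = Real.exp (-(C₁ * S)) := mul_one _
  have hle1 : Real.exp (-(C₁ * S)) ≤ 1 := by
    rw [Real.exp_le_one_iff]
    nlinarith
  -- e^{-CS} (4‖lam‖) ≤ e^{-C₁ S}
  have hcl : 4 * ‖lam‖ * Real.exp (-(C * S)) ≤ Real.exp (-(C₁ * S)) := by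
    have h1 : Real.exp (C - C₁) ≤ Real.exp ((C - C₁) * S) := by
      apply Real.exp_le_exp.2
      nlinarith
    calc 4 * ‖lam‖ * Real.exp (-(C * S)) ≤ Real.exp ((C - C₁) * S) * Real.exp (-(C * S)) :=
          mul_le_mul_of_nonneg_right (hC2.trans h1) (Real.exp_pos _).le
      _ = Real.exp (-(C₁ * S)) := by rw [← Real.exp_add]; ring_nf
  by_cases hbig : ‖lam * x‖ ≤ 1 / 2
  · have hn : ‖lam * x - b * ε‖ ≤ 1 := by
      refine (norm_sub_le _ _).trans ?_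
      linarith
    have h1 : ‖Complex.exp (lam * x - b * ε) - 1‖ ≤ 2 * ‖lam * x - b * ε‖ := Complex.norm_exp_sub_one_le hn
    have h2 := hL a ha
    rw [← hkey] at h2
    have h3 : Real.exp (-(C₁ * S)) ≤ Real.exp (-(C₁ * a)) := by
      apply Real.exp_le_exp.2
      have : (a : ℝ) ≤ S := by exact_mod_cast haS
      nlinarith
    have h4 : ‖lam * x - b * ε‖ ≤ ‖lam‖ * ‖x‖ + S * Real.exp (-(C * S)) := by
      refine (norm_sub_le _ _).trans ?_
      rw [norm_mul lam x]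
      linarith
    have h5 : Real.exp (-(C₁ * S)) ≤ 4 * ‖lam‖ * ‖x‖ := by
      have := Real.exp_pos (-(C₁ * S))
      linarith
    have h6 : 4 * ‖lam‖ * Real.exp (-(C * S)) ≤ 4 * ‖lam‖ * ‖x‖ := hcl.trans h5
    exact le_of_mul_le_mul_left h6 (by positivity)
  · rw [not_le, norm_mul] at hbig
    have h6 : 4 * ‖lam‖ * Real.exp (-(C * S)) ≤ 4 * ‖lam‖ * ‖x‖ := by
      linarith
    exact le_of_mul_le_mul_left h6 (by positivity)

theorem sep6 {lam : ℂ} (hal : IsAlgebraic ℚ (Complex.exp lam)) (hroot : ∀ n : ℕ, 0 < n → Complex.exp lam ^ n ≠ 1) :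
    ∃ C : ℝ, 1 ≤ C ∧ ∀ (S : ℕ) (be : ℂ), 1 ≤ S →
      ‖lam * be - 2 * Real.pi * Complex.I‖ ≤ Real.exp (-(C * S)) → ∀ a b : ℤ, |a| ≤ S → |b| ≤ S →
        (a ≠ 0 ∨ b ≠ 0) → Real.exp (-(C * S)) ≤ ‖(a : ℂ) + b * be‖ := by
  obtain ⟨C₁, hC₁, hL⟩ := sep6_liou hal hroot
  have hlam : lam ≠ 0 := by
    intro e
    apply hroot 1 one_pos
    rw [e, Complex.exp_zero, one_pow]
  have hlp : 0 < ‖lam‖ := norm_pos_iff.2 hlam
  refine ⟨C₁ + 4 + 4 * ‖lam‖, by linarith, fun S be hS he a b ha hb hab => ?_⟩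
  set C : ℝ := C₁ + 4 + 4 * ‖lam‖ with hCdef
  have hC : C₁ + 4 ≤ C := by linarith
  have hC2 : 4 * ‖lam‖ ≤ Real.exp (C - C₁) := by
    have := Real.add_one_le_exp (C - C₁)
    linarith
  have hS1 : (1 : ℝ) ≤ S := by exact_mod_cast hS
  have haS : (a.natAbs : ℤ) ≤ S := by
    rw [Int.natCast_natAbs]
    exact ha
  rcases lt_trichotomy a 0 with h | h | h
  · -- negative
    have h1 := sep6_pos hlam hC₁ hL hC hC2 S be hS he a.natAbs (-b) (by omega) (by omega)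
      (by rw [abs_neg]; exact hb)
    have e : ((a.natAbs : ℕ) : ℂ) + ((-b : ℤ) : ℂ) * be = -((a : ℂ) + b * be) := by
      have h2 : ((a.natAbs : ℕ) : ℤ) = -a := by omega
      have h3 : ((a.natAbs : ℕ) : ℂ) = -(a : ℂ) := by
        have := congrArg (fun z : ℤ => (z : ℂ)) h2
        simpa using this
      rw [h3]
      push_cast
      ring
    rw [e, norm_neg] at h1
    exact h1
  · -- zero
    have hb0 : b ≠ 0 := by
      rcases hab with h1 | h1
      · exact absurd h h1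
      · exact h1
    have hb1 : (1 : ℝ) ≤ |(b : ℝ)| := by
      have : 1 ≤ |b| := Int.one_le_abs hb0
      exact_mod_cast this
    have hle1 : Real.exp (-(C * S)) ≤ 1 := by
      rw [Real.exp_le_one_iff]
      nlinarith
    have h2 : ‖(2 * Real.pi * Complex.I : ℂ)‖ = 2 * Real.pi := by
      rw [norm_mul, norm_mul, Complex.norm_I, mul_one, Complex.norm_real, Real.norm_eq_abs, abs_of_pos Real.pi_pos]
      norm_num
    have h3 : ‖(2 * Real.pi * Complex.I : ℂ)‖ ≤ ‖lam * be‖ + ‖lam * be - 2 * Real.pi * Complex.I‖ := by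
      have e : (2 * Real.pi * Complex.I : ℂ) = lam * be - (lam * be - 2 * Real.pi * Complex.I) := by ring
      calc ‖(2 * Real.pi * Complex.I : ℂ)‖ = ‖lam * be - (lam * be - 2 * Real.pi * Complex.I)‖ := by rw [← e]
        _ ≤ _ := norm_sub_le _ _
    rw [h2, norm_mul] at h3
    have h4 : 1 ≤ ‖lam‖ * ‖be‖ := by
      have := Real.pi_gt_three
      linarith
    have h5 : ‖lam‖ * Real.exp (-(C * S)) ≤ 1 := by
      have h6 : ‖lam‖ ≤ Real.exp (C * S) := by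
        have h7 := Real.add_one_le_exp (C * S)
        have h8 : C ≤ C * S := by nlinarith
        linarith
      calc ‖lam‖ * Real.exp (-(C * S)) ≤ Real.exp (C * S) * Real.exp (-(C * S)) :=
            mul_le_mul_of_nonneg_right h6 (Real.exp_pos _).le
        _ = 1 := by rw [← Real.exp_add]; simp
    have h6 : Real.exp (-(C * S)) ≤ ‖be‖ := by
      have h7 : ‖lam‖ * Real.exp (-(C * S)) ≤ ‖lam‖ * ‖be‖ := h5.trans h4
      exact le_of_mul_le_mul_left h7 hlp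
    rw [h, Int.cast_zero, zero_add, norm_mul, Complex.norm_intCast]
    calc Real.exp (-(C * S)) ≤ ‖be‖ := h6
      _ = 1 * ‖be‖ := (one_mul _).symm
      _ ≤ |(b : ℝ)| * ‖be‖ := mul_le_mul_of_nonneg_right hb1 (norm_nonneg _)
  · -- positive
    have h1 := sep6_pos hlam hC₁ hL hC hC2 S be hS he a.natAbs b (by omega) (by omega) hb
    have h3 : ((a.natAbs : ℕ) : ℂ) = (a : ℂ) := by
      have h2 : ((a.natAbs : ℕ) : ℤ) = a := by omega
      have := congrArg (fun z : ℤ => (z : ℂ)) h2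
      simpa using this
    rw [h3] at h1
    exact h1

end Pool.Agent.LGO.PS.E6
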