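import Mathlib
import Pool.Agent.LGO.PS.E6.Defs
import Pool.Agent.LGO.E3.AuxP
import Pool.Agent.LGO.E3.Base
import Pool.Agent.LGO.H.BdC

/-!
# LGO/PS/E6: the auxiliary polynomial

`val_bd`: let `ν ≤ e ^ V`, `μ ≤ e ^ V0` be denominators of `be`, `al`.  `ν ^ L0 μ ^ (S L1) (s + s' be) ^ i al ^ (s j)` is integral
(`i ≤ L0`, `s j ≤ S L1`); its conjugates are at most `e ^ (V L0) e ^ (V0 S L1) (2 S e ^ V) ^ L0 e ^ (V0 S L1) = exp (H6 V V0 L0 L1 S)`
(`s + s' ‖σ be‖ ≤ S (1 + e ^ V) ≤ 2 S e ^ V`).  So `Bd K (log P + log (L0 L1) + H6 ..) (val ..)` with denominator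
`ν ^ L0 μ ^ (S L1)`; `hne` is only used for `0 < L0`, `0 < L1` (`log (L0 L1) ≥ 0`), `1 ≤ P`.
`aux6`: `siegel K` (`LGO/E3/Base.lean`), `SiegelSt.fintype` (`LGO/E3/AuxP.lean`) for `ι = Fin S × Fin S`, `κ = Fin L0 × Fin L1`,
entries `ν ^ L0 μ ^ (S L1) (s + s' be) ^ i al ^ (s j)` in `K`, `B = exp (H6 ..) ≥ 1`; `4 n B + 1 ≤ 5 n B`.
-/

namespace Pool.Agent.LGO.PS.E6

open Pool.Agent.LGO

private theorem Aux6_int {K : IntermediateField ℚ ℂ} {b a : K} {ν μ : ℕ}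
    (hb : IsIntegral ℤ ((ν : K) * b)) (ha : IsIntegral ℤ ((μ : K) * a)) {L0 N i k : ℕ}
    (hi : i ≤ L0) (hk : k ≤ N) (s s' : ℕ) :
    IsIntegral ℤ (((ν : K) ^ L0 * (μ : K) ^ N) * (((s : K) + s' * b) ^ i * a ^ k)) := by
  have hn : ∀ n : ℕ, IsIntegral ℤ (n : K) := fun n => by
    have := isIntegral_algebraMap (R := ℤ) (A := K) (x := (n : ℤ))
    simpa using this
  have e : ((ν : K) ^ L0 * (μ : K) ^ N) * (((s : K) + s' * b) ^ i * a ^ k) =
      (ν : K) ^ (L0 - i) * ((ν : K) * s + s' * ((ν : K) * b)) ^ i *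
        ((μ : K) ^ (N - k) * ((μ : K) * a) ^ k) := by
    have e1 : (ν : K) ^ L0 = (ν : K) ^ (L0 - i) * (ν : K) ^ i := by
      rw [← pow_add, Nat.sub_add_cancel hi]
    have e2 : (μ : K) ^ N = (μ : K) ^ (N - k) * (μ : K) ^ k := by
      rw [← pow_add, Nat.sub_add_cancel hk]
    have e3 : (ν : K) * s + s' * ((ν : K) * b) = (ν : K) * ((s : K) + s' * b) := by ring
    rw [e1, e2, e3, mul_pow, mul_pow]
    ring
  rw [e]
  exact (((hn ν).pow _).mul ((((hn ν).mul (hn s)).add ((hn s').mul hb)).pow _)).mul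
    (((hn μ).pow _).mul (ha.pow _))

private theorem Aux6_house {K : IntermediateField ℚ ℂ} {b a : K} {V V0 : ℝ} (hV : 0 ≤ V)
    (hV0 : 0 ≤ V0) (σ : K →+* ℂ) (hb : ‖σ b‖ ≤ Real.exp V) (ha : ‖σ a‖ ≤ Real.exp V0)
    {L0 N i k S s s' : ℕ} (hi : i ≤ L0) (hk : k ≤ N) (hs : s < S) (hs' : s' < S) :
    ‖σ (((s : K) + s' * b) ^ i * a ^ k)‖ ≤ (2 * S * Real.exp V) ^ L0 * Real.exp V0 ^ N := by
  have hS : (1 : ℝ) ≤ S := by exact_mod_cast (by omega : 1 ≤ S)
  have hV1 : 1 ≤ Real.exp V := Real.one_le_exp hV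
  have hV01 : 1 ≤ Real.exp V0 := Real.one_le_exp hV0
  have h1 : ‖σ ((s : K) + s' * b)‖ ≤ 2 * S * Real.exp V := by
    rw [map_add, map_mul, map_natCast, map_natCast]
    have hs1 : (s : ℝ) ≤ S := by exact_mod_cast hs.le
    have hs2 : (s' : ℝ) ≤ S := by exact_mod_cast hs'.le
    calc ‖(s : ℂ) + (s' : ℂ) * σ b‖ ≤ ‖(s : ℂ)‖ + ‖(s' : ℂ) * σ b‖ := norm_add_le _ _
      _ = s + s' * ‖σ b‖ := by rw [norm_mul, Complex.norm_natCast, Complex.norm_natCast]
      _ ≤ S * Real.exp V + S * Real.exp V := by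
          apply add_le_add
          · calc (s : ℝ) ≤ S * 1 := by linarith
              _ ≤ S * Real.exp V := mul_le_mul_of_nonneg_left hV1 (by linarith)
          · exact mul_le_mul hs2 hb (norm_nonneg _) (by linarith)
      _ = 2 * S * Real.exp V := by ring
  have h2 : (1 : ℝ) ≤ 2 * S * Real.exp V := by nlinarith
  rw [map_mul, map_pow, map_pow, norm_mul, norm_pow, norm_pow]
  apply mul_le_mul
  · exact (pow_le_pow_left₀ (norm_nonneg _) h1 i).trans (pow_le_pow_right₀ h2 hi)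
  · exact (pow_le_pow_left₀ (norm_nonneg _) ha k).trans (pow_le_pow_right₀ hV01 hk)
  · positivity
  · positivity

private theorem Aux6_exp {V V0 : ℝ} {L0 L1 S : ℕ} (hS : 0 < S) :
    (Real.exp V ^ L0 * Real.exp V0 ^ (S * L1)) *
      ((2 * S * Real.exp V) ^ L0 * Real.exp V0 ^ (S * L1)) = Real.exp (H6 V V0 L0 L1 S) := by
  have hS' : (0 : ℝ) < S := by exact_mod_cast hS
  have e1 : (2 * (S : ℝ) * Real.exp V) ^ L0 = Real.exp (L0 * (Real.log (2 * S) + V)) := by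
    rw [← Real.exp_log (by positivity : (0 : ℝ) < 2 * S), ← Real.exp_add, ← Real.exp_nat_mul,
      Real.exp_log (by positivity : (0 : ℝ) < 2 * S)]
  rw [e1, ← Real.exp_nat_mul, ← Real.exp_nat_mul, ← Real.exp_add, ← Real.exp_add, ← Real.exp_add]
  congr 1
  unfold H6
  push_cast
  ring

private theorem Aux6_H {V V0 : ℝ} (hV : 0 ≤ V) (hV0 : 0 ≤ V0) {L0 L1 S : ℕ} (hS : 0 < S) :
    0 ≤ H6 V V0 L0 L1 S := by
  have hS' : (1 : ℝ) ≤ S := by exact_mod_cast hS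
  have : 0 ≤ Real.log (2 * S) := Real.log_nonneg (by linarith)
  unfold H6
  positivity

private theorem Aux6_den {V V0 : ℝ} {L0 N ν μ : ℕ} (hν : (ν : ℝ) ≤ Real.exp V)
    (hμ : (μ : ℝ) ≤ Real.exp V0) :
    (ν : ℝ) ^ L0 * (μ : ℝ) ^ N ≤ Real.exp V ^ L0 * Real.exp V0 ^ N := by
  apply mul_le_mul (pow_le_pow_left₀ (Nat.cast_nonneg _) hν _)
    (pow_le_pow_left₀ (Nat.cast_nonneg _) hμ _) (by positivity) (by positivity)

private theorem Aux6_toK {K : IntermediateField ℚ ℂ} {B : ℝ} {x : ℂ} (h : Bd K B x) :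
    ∃ n : ℕ, 0 < n ∧ (n : ℝ) ≤ Real.exp B ∧ IsIntegral ℤ ((n : K) * (⟨x, h.mem⟩ : K)) := by
  obtain ⟨n, hn, hnB, hint⟩ := h.den
  refine ⟨n, hn, hnB, ?_⟩
  have h1 : IsIntegral ℤ ((algebraMap K ℂ) ((n : K) * (⟨x, h.mem⟩ : K))) := by
    have e : (algebraMap K ℂ) ((n : K) * (⟨x, h.mem⟩ : K)) = (n : ℂ) * x := by
      rw [map_mul, map_natCast]
      rfl
    rw [e]
    exact hint
  exact (isIntegral_algebraMap_iff (algebraMap K ℂ).injective).1 h1

private theorem Aux6_coe {K : IntermediateField ℚ ℂ} {be al : ℂ} (hb : be ∈ K) (ha : al ∈ K)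
    (L0 L1 : ℕ) (p : ℕ → ℕ → ℤ) (s s' : ℕ) :
    val be al L0 L1 p s s' = ((∑ i ∈ Finset.range L0, ∑ j ∈ Finset.range L1, (p i j : K) *
      (((s : K) + s' * (⟨be, hb⟩ : K)) ^ i * (⟨al, ha⟩ : K) ^ (s * j)) : K) : ℂ) := by
  have e : ∀ z : K, (z : ℂ) = algebraMap K ℂ z := fun _ => rfl
  have e1 : (algebraMap K ℂ) (⟨be, hb⟩ : K) = be := rfl
  have e2 : (algebraMap K ℂ) (⟨al, ha⟩ : K) = al := rfl
  rw [e, map_sum]
  unfold val
  refine Finset.sum_congr rfl fun i _ => ?_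
  rw [map_sum]
  refine Finset.sum_congr rfl fun j _ => ?_
  rw [map_mul, map_mul, map_pow, map_pow, map_add, map_mul, map_natCast, map_natCast, map_intCast,
    e1, e2]
  ring

theorem val_bd {K : IntermediateField ℚ ℂ} {be al : ℂ} {V V0 P : ℝ} (hV : 0 ≤ V) (hV0 : 0 ≤ V0)
    (hb : Bd K V be) (ha : Bd K V0 al) {L0 L1 S : ℕ} (h0 : 0 < L0) (h1 : 0 < L1) {p : ℕ → ℕ → ℤ}
    (hP : 1 ≤ P) (hp : ∀ i j, |(p i j : ℝ)| ≤ P) {s s' : ℕ} (hs : s < S) (hs' : s' < S) :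
    Bd K (Real.log P + Real.log (L0 * L1) + H6 V V0 L0 L1 S) (val be al L0 L1 p s s') := by
  have hS : 0 < S := by omega
  have hP0 : 0 < P := by linarith
  have hL0 : (1 : ℝ) ≤ L0 := by exact_mod_cast h0
  have hL1 : (1 : ℝ) ≤ L1 := by exact_mod_cast h1
  have hlogP : 0 ≤ Real.log P := Real.log_nonneg hP
  have hLL : (1 : ℝ) ≤ L0 * L1 := one_le_mul_of_one_le_of_one_le hL0 hL1
  have hlogL : 0 ≤ Real.log (L0 * L1) := Real.log_nonneg hLL
  obtain ⟨ν, hν, hνV, hνi⟩ := Aux6_toK hb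
  obtain ⟨μ, hμ, hμV, hμi⟩ := Aux6_toK ha
  have hcoe := Aux6_coe hb.mem ha.mem L0 L1 p s s'
  set bK : K := ⟨be, hb.mem⟩ with hbK
  set aK : K := ⟨al, ha.mem⟩ with haK
  set vK : K := ∑ i ∈ Finset.range L0, ∑ j ∈ Finset.range L1, (p i j : K) *
      (((s : K) + s' * bK) ^ i * aK ^ (s * j)) with hvK
  have hk : ∀ j ∈ Finset.range L1, s * j ≤ S * L1 := fun j hj =>
    Nat.mul_le_mul hs.le (Finset.mem_range.1 hj).le
  have hexp : Real.exp (Real.log P + Real.log (L0 * L1) + H6 V V0 L0 L1 S) =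
      P * (L0 * L1) * ((Real.exp V ^ L0 * Real.exp V0 ^ (S * L1)) *
      ((2 * S * Real.exp V) ^ L0 * Real.exp V0 ^ (S * L1))) := by
    rw [Real.exp_add, Real.exp_add, Real.exp_log hP0, Real.exp_log (by linarith), Aux6_exp hS]
  have hDge : 1 ≤ Real.exp V ^ L0 * Real.exp V0 ^ (S * L1) :=
    one_le_mul_of_one_le_of_one_le (one_le_pow₀ (Real.one_le_exp hV))
      (one_le_pow₀ (Real.one_le_exp hV0))
  have hmem : val be al L0 L1 p s s' ∈ K := by
    rw [hcoe]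
    exact vK.2
  refine ⟨hmem, ⟨ν ^ L0 * μ ^ (S * L1), by positivity, ?_, ?_⟩, ?_⟩
  · push_cast
    refine (Aux6_den hνV hμV).trans ?_
    have h3 : Real.exp V ^ L0 * Real.exp V0 ^ (S * L1) ≤ Real.exp (H6 V V0 L0 L1 S) := by
      rw [← Aux6_exp hS]
      have hS' : (1 : ℝ) ≤ S := by exact_mod_cast hS
      have h4 : (1 : ℝ) ≤ (2 * S * Real.exp V) ^ L0 * Real.exp V0 ^ (S * L1) := by
        apply one_le_mul_of_one_le_of_one_le
        · apply one_le_pow₀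
          have := Real.one_le_exp hV
          nlinarith
        · exact one_le_pow₀ (Real.one_le_exp hV0)
      nlinarith
    exact h3.trans (Real.exp_le_exp.2 (by linarith))
  · have h3 : IsIntegral ℤ (((ν : K) ^ L0 * (μ : K) ^ (S * L1)) * vK) := by
      rw [hvK, Finset.mul_sum]
      refine IsIntegral.sum _ fun i hi => ?_
      rw [Finset.mul_sum]
      refine IsIntegral.sum _ fun j hj => ?_
      have h4 := Aux6_int hνi hμi (Finset.mem_range.1 hi).le (hk j hj) s s'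
      have h5 : IsIntegral ℤ ((p i j : ℤ) : K) := by
        have := isIntegral_algebraMap (R := ℤ) (A := K) (x := p i j)
        simpa using this
      have h6 : ((ν : K) ^ L0 * (μ : K) ^ (S * L1)) * ((p i j : K) *
          (((s : K) + s' * bK) ^ i * aK ^ (s * j))) = (p i j : K) *
          (((ν : K) ^ L0 * (μ : K) ^ (S * L1)) * (((s : K) + s' * bK) ^ i * aK ^ (s * j))) := by
        ring
      rw [h6]
      exact h5.mul h4
    have h7 := (isIntegral_algebraMap_iff (algebraMap K ℂ).injective (R := ℤ)).2 h3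
    rw [map_mul, map_mul, map_pow, map_pow, map_natCast, map_natCast] at h7
    have h8 : ((ν ^ L0 * μ ^ (S * L1) : ℕ) : ℂ) * val be al L0 L1 p s s' =
        (ν : ℂ) ^ L0 * (μ : ℂ) ^ (S * L1) * (algebraMap K ℂ) vK := by
      rw [hcoe]
      push_cast
      rfl
    rw [h8]
    exact h7
  · intro σ
    have h3 : (⟨val be al L0 L1 p s s', hmem⟩ : K) = vK := Subtype.ext hcoe
    rw [h3, hvK, map_sum, hexp]
    set W : ℝ := (2 * S * Real.exp V) ^ L0 * Real.exp V0 ^ (S * L1) with hW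
    have hW0 : 0 ≤ W := by positivity
    calc ‖∑ i ∈ Finset.range L0, σ (∑ j ∈ Finset.range L1, (p i j : K) *
          (((s : K) + s' * bK) ^ i * aK ^ (s * j)))‖
        ≤ ∑ i ∈ Finset.range L0, ∑ j ∈ Finset.range L1, P * W := by
          refine (norm_sum_le _ _).trans (Finset.sum_le_sum fun i hi => ?_)
          rw [map_sum]
          refine (norm_sum_le _ _).trans (Finset.sum_le_sum fun j hj => ?_)
          rw [map_mul, norm_mul, map_intCast, Complex.norm_intCast]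
          exact mul_le_mul (hp i j) (Aux6_house hV hV0 σ (hb.house σ) (ha.house σ)
            (Finset.mem_range.1 hi).le (hk j hj) hs hs') (norm_nonneg _) hP0.le
      _ = P * (L0 * L1) * W := by
          rw [Finset.sum_const, Finset.sum_const, Finset.card_range, Finset.card_range,
            nsmul_eq_mul, nsmul_eq_mul]
          ring
      _ ≤ P * (L0 * L1) * ((Real.exp V ^ L0 * Real.exp V0 ^ (S * L1)) * W) := by
          apply mul_le_mul_of_nonneg_left _ (by positivity)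
          nlinarith

theorem aux6 {K : IntermediateField ℚ ℂ} [FiniteDimensional ℚ K] {be al : ℂ} {V V0 : ℝ} (hV : 0 ≤ V)
    (hV0 : 0 ≤ V0) (hb : Bd K V be) (ha : Bd K V0 al) {L0 L1 S : ℕ} (h0 : 0 < L0) (h1 : 0 < L1) (hS : 0 < S)
    (hL : 4 * Module.finrank ℚ K * S ^ 2 ≤ L0 * L1) :
    ∃ p : ℕ → ℕ → ℤ, (∃ i < L0, ∃ j < L1, p i j ≠ 0) ∧
      (∀ s < S, ∀ s' < S, val be al L0 L1 p s s' = 0) ∧
      ∀ i j, |(p i j : ℝ)| ≤ 5 * L0 * L1 * Real.exp (H6 V V0 L0 L1 S) := by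
  classical
  obtain ⟨ν, hν, hνV, hνi⟩ := Aux6_toK hb
  obtain ⟨μ, hμ, hμV, hμi⟩ := Aux6_toK ha
  set bK : K := ⟨be, hb.mem⟩ with hbK
  set aK : K := ⟨al, ha.mem⟩ with haK
  set B : ℝ := Real.exp (H6 V V0 L0 L1 S) with hB
  have hB1 : 1 ≤ B := Real.one_le_exp (Aux6_H hV hV0 hS)
  have hcard : Fintype.card (Fin L0 × Fin L1) = L0 * L1 := by simp
  have hcard' : Fintype.card (Fin S × Fin S) = S * S := by simp
  obtain ⟨x, ⟨j0, hj0⟩, hx, hxb⟩ := (E3.siegel K).fintype (ι := Fin S × Fin S)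
    (κ := Fin L0 × Fin L1) (B := B)
    (by rw [hcard]; positivity)
    (by
      rw [hcard, hcard']
      calc 4 * Module.finrank ℚ K * (S * S) = 4 * Module.finrank ℚ K * S ^ 2 := by ring
        _ ≤ L0 * L1 := hL)
    hB1
    (fun i j => ((ν : K) ^ L0 * (μ : K) ^ (S * L1)) *
      ((((i.1 : ℕ) : K) + ((i.2 : ℕ) : K) * bK) ^ (j.1 : ℕ) * aK ^ ((i.1 : ℕ) * (j.2 : ℕ))))
    (fun i j => Aux6_int hνi hμi j.1.2.le (Nat.mul_le_mul i.1.2.le j.2.2.le) _ _)
    (fun i j σ => by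
      rw [map_mul, norm_mul, map_mul, map_pow, map_pow, map_natCast, map_natCast, norm_mul,
        norm_pow, norm_pow, Complex.norm_natCast, Complex.norm_natCast, hB, ← Aux6_exp hS]
      exact mul_le_mul (Aux6_den hνV hμV) (Aux6_house hV hV0 σ (hb.house σ) (ha.house σ)
        j.1.2.le (Nat.mul_le_mul i.1.2.le j.2.2.le) i.1.2 i.2.2) (norm_nonneg _) (by positivity))
  let p : ℕ → ℕ → ℤ := fun a' b' =>
    if h : a' < L0 ∧ b' < L1 then x (⟨a', h.1⟩, ⟨b', h.2⟩) else 0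
  have hp : ∀ j : Fin L0 × Fin L1, p (j.1 : ℕ) (j.2 : ℕ) = x j := by
    intro j
    have h : (j.1 : ℕ) < L0 ∧ (j.2 : ℕ) < L1 := ⟨j.1.2, j.2.2⟩
    simp only [p, dif_pos h]
  refine ⟨p, ⟨j0.1, j0.1.2, j0.2, j0.2.2, ?_⟩, ?_, ?_⟩
  · rw [hp j0]
    exact hj0
  · intro s hs s' hs'
    rw [Aux6_coe hb.mem ha.mem L0 L1 p s s']
    have h := hx (⟨s, hs⟩, ⟨s', hs'⟩)
    simp only at h
    have hsum : ∑ i ∈ Finset.range L0, ∑ j ∈ Finset.range L1, (p i j : K) *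
        (((s : K) + s' * bK) ^ i * aK ^ (s * j)) =
        ∑ j : Fin L0 × Fin L1, (x j : K) *
          (((s : K) + s' * bK) ^ (j.1 : ℕ) * aK ^ (s * (j.2 : ℕ))) := by
      rw [Fintype.sum_prod_type, Finset.sum_range]
      refine Finset.sum_congr rfl fun a' _ => ?_
      rw [Finset.sum_range]
      refine Finset.sum_congr rfl fun b' _ => ?_
      have := hp (a', b')
      simp only at this
      rw [this]
    have h' : ((ν : K) ^ L0 * (μ : K) ^ (S * L1)) *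
        (∑ i ∈ Finset.range L0, ∑ j ∈ Finset.range L1, (p i j : K) *
        (((s : K) + s' * bK) ^ i * aK ^ (s * j))) = 0 := by
      rw [hsum, Finset.mul_sum, ← h]
      refine Finset.sum_congr rfl fun j _ => ?_
      ring
    have hn : ∀ {n : ℕ}, 0 < n → (n : K) ≠ 0 := fun hn => by
      exact_mod_cast hn.ne'
    have hD : ((ν : K) ^ L0 * (μ : K) ^ (S * L1)) ≠ 0 :=
      mul_ne_zero (pow_ne_zero _ (hn hν)) (pow_ne_zero _ (hn hμ))
    have h'' := (mul_eq_zero.1 h').resolve_left hD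
    rw [h'']
    rfl
  · intro i j
    have hLr : (1 : ℝ) ≤ L0 := by exact_mod_cast h0
    have hLr' : (1 : ℝ) ≤ L1 := by exact_mod_cast h1
    have hprod : (1 : ℝ) ≤ (L0 : ℝ) * L1 * B :=
      one_le_mul_of_one_le_of_one_le (one_le_mul_of_one_le_of_one_le hLr hLr') hB1
    by_cases h : i < L0 ∧ j < L1
    · have h2 := hxb (⟨i, h.1⟩, ⟨j, h.2⟩)
      rw [hcard] at h2
      have h3 : p i j = x (⟨i, h.1⟩, ⟨j, h.2⟩) := by simp only [p, dif_pos h]
      rw [h3]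
      push_cast at h2
      linarith
    · have h3 : p i j = 0 := by simp only [p, dif_neg h]
      rw [h3]
      simp only [Int.cast_zero, abs_zero]
      linarith

end Pool.Agent.LGO.PS.E6
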