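import Mathlib
import Pool.Agent.LGO.PS.E6.Defs

/-!
# LGO/PS/E6: the function `fn`

`fn_growth`: triangle inequality, `‖exp (j λ z)‖ ≤ exp (L1 ‖λ‖ R)`, `‖z‖ ^ i ≤ R ^ L0` (`R ≥ 1`), `‖p i j‖ ≤ P`.
`fn_near`: `exp (j λ (s + s' be)) = al ^ (s j) exp (j s' (λ be)) = al ^ (s j) exp (j s' (λ be - 2 π i))`
(`exp (2 π i j s') = 1`), `‖e ^ x - 1‖ ≤ 2 ‖x‖` for `‖x‖ ≤ 1` (`Complex.norm_exp_sub_one_le`), `‖x‖ ≤ L1 S δ`,
`‖s + s' be‖ ^ i ≤ (S (1 + ‖be‖)) ^ L0` (`S (1 + ‖be‖) ≥ 1`), `‖al‖ ^ (s j) ≤ exp (V0 S L1)`.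
-/

namespace Pool.Agent.LGO.PS.E6

theorem fn_diff (lam : ℂ) (L0 L1 : ℕ) (p : ℕ → ℕ → ℤ) : Differentiable ℂ (fn lam L0 L1 p) := by
  unfold fn
  fun_prop

private theorem Fun_sum {L0 L1 : ℕ} {B : ℝ} (F : ℕ → ℕ → ℂ) (h : ∀ i < L0, ∀ j < L1, ‖F i j‖ ≤ B) :
    ‖∑ i ∈ Finset.range L0, ∑ j ∈ Finset.range L1, F i j‖ ≤ L0 * L1 * B := by
  calc ‖∑ i ∈ Finset.range L0, ∑ j ∈ Finset.range L1, F i j‖
      ≤ ∑ i ∈ Finset.range L0, ‖∑ j ∈ Finset.range L1, F i j‖ := norm_sum_le _ _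
    _ ≤ ∑ i ∈ Finset.range L0, ∑ j ∈ Finset.range L1, ‖F i j‖ :=
        Finset.sum_le_sum fun i _ => norm_sum_le _ _
    _ ≤ ∑ i ∈ Finset.range L0, ∑ j ∈ Finset.range L1, B :=
        Finset.sum_le_sum fun i hi => Finset.sum_le_sum fun j hj =>
          h i (Finset.mem_range.1 hi) j (Finset.mem_range.1 hj)
    _ = L0 * L1 * B := by
        rw [Finset.sum_const, Finset.sum_const, Finset.card_range, Finset.card_range, nsmul_eq_mul, nsmul_eq_mul,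
          mul_assoc]

private theorem Fun_exp {w : ℂ} {B : ℝ} (h : ‖w‖ ≤ B) : ‖Complex.exp w‖ ≤ Real.exp B := by
  rw [Complex.norm_exp]
  exact Real.exp_le_exp.2 ((Complex.re_le_norm w).trans h)

theorem fn_growth (lam : ℂ) (L0 L1 : ℕ) (p : ℕ → ℕ → ℤ) {P R : ℝ} (hp : ∀ i j, |(p i j : ℝ)| ≤ P) (hR : 1 ≤ R)
    {z : ℂ} (hz : ‖z‖ ≤ R) : ‖fn lam L0 L1 p z‖ ≤ L0 * L1 * P * (R ^ L0 * Real.exp (L1 * ‖lam‖ * R)) := by
  have hP : 0 ≤ P := (abs_nonneg _).trans (hp 0 0)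
  have hR0 : 0 ≤ R := by linarith
  unfold fn
  rw [mul_assoc ((L0 : ℝ) * L1)]
  apply Fun_sum
  intro i hi j hj
  have h1 : ‖((p i j : ℤ) : ℂ)‖ ≤ P := by
    rw [Complex.norm_intCast]
    exact hp i j
  have h2 : ‖z‖ ^ i ≤ R ^ L0 :=
    (pow_le_pow_left₀ (norm_nonneg z) hz i).trans (pow_le_pow_right₀ hR hi.le)
  have h3 : ‖Complex.exp (j * (lam * z))‖ ≤ Real.exp (L1 * ‖lam‖ * R) := by
    apply Fun_exp
    rw [norm_mul, norm_mul, Complex.norm_natCast, mul_assoc (L1 : ℝ)]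
    have hj' : (j : ℝ) ≤ L1 := by exact_mod_cast hj.le
    gcongr
  rw [norm_mul, norm_mul, norm_pow, mul_assoc]
  exact mul_le_mul h1 (mul_le_mul h2 h3 (norm_nonneg _) (by positivity)) (by positivity) hP

theorem fn_near {lam be al : ℂ} (hal : Complex.exp lam = al) (L0 L1 S : ℕ) (p : ℕ → ℕ → ℤ) {P V0 : ℝ}
    (hp : ∀ i j, |(p i j : ℝ)| ≤ P) (hV0 : 0 ≤ V0) (ha : ‖al‖ ≤ Real.exp V0)
    (hδ : L1 * S * ‖lam * be - 2 * Real.pi * Complex.I‖ ≤ 1) {s s' : ℕ} (hs : s < S) (hs' : s' < S) :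
    ‖fn lam L0 L1 p (s + s' * be) - val be al L0 L1 p s s'‖ ≤
      L0 * L1 * P * ((S * (1 + ‖be‖)) ^ L0 * Real.exp (V0 * S * L1)) *
        (2 * (L1 * S * ‖lam * be - 2 * Real.pi * Complex.I‖)) := by
  have hP : 0 ≤ P := (abs_nonneg _).trans (hp 0 0)
  have hS1 : (1 : ℝ) ≤ S := by exact_mod_cast (by omega : 1 ≤ S)
  have hs1 : (s : ℝ) ≤ S := by exact_mod_cast hs.le
  have hs1' : (s' : ℝ) ≤ S := by exact_mod_cast hs'.le
  set δ : ℂ := lam * be - 2 * Real.pi * Complex.I with hδd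
  set w : ℂ := (s : ℂ) + s' * be with hw
  have hbe := norm_nonneg be
  have hw1 : ‖w‖ ≤ S * (1 + ‖be‖) := by
    calc ‖w‖ ≤ ‖(s : ℂ)‖ + ‖(s' : ℂ) * be‖ := norm_add_le _ _
      _ = s + s' * ‖be‖ := by rw [norm_mul, Complex.norm_natCast, Complex.norm_natCast]
      _ ≤ S + S * ‖be‖ := add_le_add hs1 (mul_le_mul_of_nonneg_right hs1' hbe)
      _ = S * (1 + ‖be‖) := by ring
  have hT1 : 1 ≤ S * (1 + ‖be‖) := by nlinarith
  have hexp : ∀ j : ℕ, Complex.exp (j * (lam * w)) = al ^ (s * j) * Complex.exp ((j * s' : ℕ) * δ) := by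
    intro j
    have e1 : (j : ℂ) * (lam * w) = ((s * j : ℕ) : ℂ) * lam + (((j * s' : ℕ) : ℂ) * δ +
        ((j * s' : ℕ) : ℂ) * (2 * Real.pi * Complex.I)) := by
      rw [hw, hδd]
      push_cast
      ring
    rw [e1, Complex.exp_add, Complex.exp_add, Complex.exp_nat_mul, hal, Complex.exp_nat_mul_two_pi_mul_I, mul_one]
  have hdiff : fn lam L0 L1 p w - val be al L0 L1 p s s' = ∑ i ∈ Finset.range L0, ∑ j ∈ Finset.range L1,
      (p i j : ℂ) * (w ^ i * al ^ (s * j)) * (Complex.exp ((j * s' : ℕ) * δ) - 1) := by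
    unfold fn val
    rw [← Finset.sum_sub_distrib]
    apply Finset.sum_congr rfl
    intro i _
    rw [← Finset.sum_sub_distrib]
    apply Finset.sum_congr rfl
    intro j _
    rw [hexp j, hw]
    ring
  rw [hdiff]
  have hB : (L0 : ℝ) * L1 * P * ((S * (1 + ‖be‖)) ^ L0 * Real.exp (V0 * S * L1)) * (2 * (L1 * S * ‖δ‖)) =
      L0 * L1 * (P * ((S * (1 + ‖be‖)) ^ L0 * Real.exp (V0 * S * L1)) * (2 * (L1 * S * ‖δ‖))) := by ring
  rw [hB]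
  apply Fun_sum
  intro i hi j hj
  have hj' : (j : ℝ) ≤ L1 := by exact_mod_cast hj.le
  have h1 : ‖((p i j : ℤ) : ℂ)‖ ≤ P := by
    rw [Complex.norm_intCast]
    exact hp i j
  have h2 : ‖w‖ ^ i ≤ (S * (1 + ‖be‖)) ^ L0 :=
    (pow_le_pow_left₀ (norm_nonneg w) hw1 i).trans (pow_le_pow_right₀ hT1 hi.le)
  have h3 : ‖al‖ ^ (s * j) ≤ Real.exp (V0 * S * L1) := by
    calc ‖al‖ ^ (s * j) ≤ Real.exp V0 ^ (s * j) := pow_le_pow_left₀ (norm_nonneg al) ha _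
      _ = Real.exp ((s * j : ℕ) * V0) := by rw [Real.exp_nat_mul]
      _ ≤ Real.exp (V0 * S * L1) := by
          apply Real.exp_le_exp.2
          push_cast
          have : (s : ℝ) * j ≤ S * L1 := mul_le_mul hs1 hj' (by positivity) (by positivity)
          calc (s : ℝ) * j * V0 ≤ S * L1 * V0 := mul_le_mul_of_nonneg_right this hV0
            _ = V0 * S * L1 := by ring
  have hn : ‖((j * s' : ℕ) : ℂ) * δ‖ ≤ L1 * S * ‖δ‖ := by
    rw [norm_mul, Complex.norm_natCast]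
    push_cast
    exact mul_le_mul_of_nonneg_right (mul_le_mul hj' hs1' (by positivity) (by positivity)) (norm_nonneg δ)
  have h4 : ‖Complex.exp (((j * s' : ℕ) : ℂ) * δ) - 1‖ ≤ 2 * (L1 * S * ‖δ‖) :=
    (Complex.norm_exp_sub_one_le (hn.trans hδ)).trans (mul_le_mul_of_nonneg_left hn (by norm_num))
  rw [norm_mul, norm_mul, norm_mul, norm_pow, norm_pow]
  exact mul_le_mul (mul_le_mul h1 (mul_le_mul h2 h3 (by positivity) (by positivity)) (by positivity) hP) h4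
    (norm_nonneg _) (by positivity)

end Pool.Agent.LGO.PS.E6
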