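import Mathlib

/-!
# LGO/PS/E6: Schwarz lemma with approximate zeros

PROOF.  `n = s.card`.  If `n = 0` the claim is `‖f w‖ ≤ B`.  `Q = Lagrange.interpolate s id f` (a polynomial with `Q(z) = f(z)` for
`z ∈ s`).  For `‖ζ‖ ≤ 7 r`: `‖Q(ζ)‖ ≤ ∑ z ∈ s, ‖f z‖ ∏ z' ∈ s \ z, ‖ζ - z'‖ / ‖z - z'‖ ≤ n δ (8 r / σ) ^ (n - 1) ≤ n δ (8 r / σ) ^ n`
(`8 r / σ ≥ 1`).  `g = f - Q` is entire and vanishes on `s`, so `g = (∏ z ∈ s, (ζ - z)) h`, `h` entire (induction on `s` with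
`dslope`, `Differentiable`: if `g(z) = 0` then `g = (ζ - z) dslope g z`, and the other zeros of `g` are zeros of `dslope g z`).
Maximum principle on `‖ζ‖ ≤ 7 r` (`Complex.norm_le_of_forall_mem_frontier_norm_le`, ball of radius `7 r`): on the circle
`‖∏ (ζ - z)‖ ≥ (6 r) ^ n`, so `‖h w‖ ≤ (B + n δ (8 r / σ) ^ n) / (6 r) ^ n`, and `‖∏ (w - z)‖ ≤ (2 r) ^ n`:
`‖g w‖ ≤ (1/3) ^ n (B + n δ (8 r / σ) ^ n)`, `‖f w‖ ≤ ‖g w‖ + ‖Q w‖`.
-/

namespace Pool.Agent.LGO.PS.E6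

/-- an entire function vanishing on a finite set is divisible by the product of the factors -/
private theorem Sch_factor (s : Finset ℂ) : ∀ g : ℂ → ℂ, Differentiable ℂ g → (∀ z ∈ s, g z = 0) →
    ∃ h : ℂ → ℂ, Differentiable ℂ h ∧ ∀ ζ, g ζ = (∏ z ∈ s, (ζ - z)) * h ζ := by
  classical
  induction s using Finset.induction_on with
  | empty =>
    intro g hg _
    exact ⟨g, hg, fun ζ => by simp⟩
  | insert a s ha ih =>
    intro g hg h0
    have hga : g a = 0 := h0 a (Finset.mem_insert_self a s)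
    have hd : Differentiable ℂ (dslope g a) := by
      rw [← differentiableOn_univ] at hg ⊢
      exact (Complex.differentiableOn_dslope Filter.univ_mem).2 hg
    have hs : ∀ ζ, (ζ - a) * dslope g a ζ = g ζ := by
      intro ζ
      have := sub_smul_dslope g a ζ
      rwa [hga, sub_zero, smul_eq_mul] at this
    obtain ⟨h, hh, hfac⟩ := ih (dslope g a) hd (fun z hz => by
      have h1 := hs z
      rw [h0 z (Finset.mem_insert_of_mem hz)] at h1
      refine (mul_eq_zero.1 h1).resolve_left ?_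
      intro h2
      rw [sub_eq_zero] at h2
      exact ha (h2 ▸ hz))
    refine ⟨h, hh, fun ζ => ?_⟩
    rw [Finset.prod_insert ha, mul_assoc, ← hfac ζ, hs ζ]

/-- the exact Schwarz lemma -/
private theorem Sch_exact (s : Finset ℂ) {g : ℂ → ℂ} (hg : Differentiable ℂ g) {r G : ℝ}
    (hr : 0 < r) (hs : ∀ z ∈ s, ‖z‖ ≤ r) (h0 : ∀ z ∈ s, g z = 0)
    (hG : ∀ z, ‖z‖ ≤ 7 * r → ‖g z‖ ≤ G) {w : ℂ} (hw : ‖w‖ ≤ r) :
    ‖g w‖ ≤ G * (1 / 3) ^ s.card := by
  obtain ⟨h, hh, hfac⟩ := Sch_factor s g hg h0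
  have h6 : (0 : ℝ) < (6 * r) ^ s.card := by positivity
  have hsph : ∀ z ∈ frontier (Metric.ball (0 : ℂ) (7 * r)), ‖h z‖ ≤ G / (6 * r) ^ s.card := by
    intro z hz
    rw [frontier_ball (0 : ℂ) (by positivity)] at hz
    have hz' : ‖z‖ = 7 * r := by simpa using hz
    rw [le_div_iff₀ h6]
    have h1 : (6 * r) ^ s.card ≤ ‖∏ y ∈ s, (z - y)‖ := by
      rw [norm_prod, ← Finset.prod_const]
      refine Finset.prod_le_prod (fun _ _ => by positivity) fun y hy => ?_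
      have h2 := norm_sub_norm_le z y
      have h3 := hs y hy
      rw [hz'] at h2
      linarith
    calc ‖h z‖ * (6 * r) ^ s.card ≤ ‖h z‖ * ‖∏ y ∈ s, (z - y)‖ :=
          mul_le_mul_of_nonneg_left h1 (norm_nonneg _)
      _ = ‖g z‖ := by rw [hfac z, norm_mul, mul_comm]
      _ ≤ G := hG z hz'.le
  have hw' : w ∈ closure (Metric.ball (0 : ℂ) (7 * r)) := by
    apply subset_closure
    rw [Metric.mem_ball, dist_zero_right]
    linarith
  have h2 : ‖h w‖ ≤ G / (6 * r) ^ s.card :=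
    Complex.norm_le_of_forall_mem_frontier_norm_le Metric.isBounded_ball hh.diffContOnCl hsph hw'
  have h3 : ‖∏ y ∈ s, (w - y)‖ ≤ (2 * r) ^ s.card := by
    rw [norm_prod, ← Finset.prod_const]
    refine Finset.prod_le_prod (fun _ _ => norm_nonneg _) fun y hy => ?_
    have h4 := norm_sub_le w y
    have h5 := hs y hy
    linarith
  rw [hfac w, norm_mul]
  calc ‖∏ y ∈ s, (w - y)‖ * ‖h w‖ ≤ (2 * r) ^ s.card * (G / (6 * r) ^ s.card) :=
        mul_le_mul h3 h2 (norm_nonneg _) (by positivity)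
    _ = G * ((2 * r) / (6 * r)) ^ s.card := by
        rw [div_pow]
        ring
    _ = G * (1 / 3) ^ s.card := by
        have : (2 * r) / (6 * r) = 1 / 3 := by
          field_simp
          norm_num
        rw [this]

theorem sch6 {f : ℂ → ℂ} (hf : Differentiable ℂ f) (s : Finset ℂ) {r B δ σ : ℝ} (hr : 0 < r) (hσ : 0 < σ)
    (hσr : σ ≤ r) (hs : ∀ z ∈ s, ‖z‖ ≤ r) (hB : ∀ z, ‖z‖ ≤ 7 * r → ‖f z‖ ≤ B) (hδ0 : 0 ≤ δ)
    (hδ : ∀ z ∈ s, ‖f z‖ ≤ δ) (sep : ∀ z ∈ s, ∀ w ∈ s, z ≠ w → σ ≤ ‖z - w‖) {w : ℂ} (hw : ‖w‖ ≤ r) :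
    ‖f w‖ ≤ B * (1 / 3) ^ s.card + 2 * s.card * δ * (8 * r / σ) ^ s.card := by
  classical
  let Q : ℂ → ℂ := fun ζ => ∑ z ∈ s, f z * ∏ z' ∈ s.erase z, (ζ - z') / (z - z')
  have hQd : Differentiable ℂ Q := by
    refine Differentiable.fun_sum fun z _ => ?_
    refine Differentiable.const_mul ?_ _
    refine Differentiable.fun_finset_prod fun z' _ => ?_
    exact (differentiable_id.sub_const z').div_const _
  have hE1 : 1 ≤ 8 * r / σ := by
    rw [le_div_iff₀ hσ]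
    linarith
  obtain ⟨X, hX⟩ : ∃ X : ℝ, X = s.card * δ * (8 * r / σ) ^ s.card := ⟨_, rfl⟩
  have hX0 : 0 ≤ X := by
    rw [hX]
    positivity
  have hQB : ∀ ζ, ‖ζ‖ ≤ 7 * r → ‖Q ζ‖ ≤ X := by
    intro ζ hζ
    refine (norm_sum_le _ _).trans ?_
    have hterm : ∀ z ∈ s, ‖f z * ∏ z' ∈ s.erase z, (ζ - z') / (z - z')‖ ≤
        δ * (8 * r / σ) ^ s.card := by
      intro z hz
      rw [norm_mul]
      refine mul_le_mul (hδ z hz) ?_ (norm_nonneg _) hδ0
      have h1 : ‖∏ z' ∈ s.erase z, (ζ - z') / (z - z')‖ ≤ (8 * r / σ) ^ (s.erase z).card := by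
        rw [norm_prod, ← Finset.prod_const]
        refine Finset.prod_le_prod (fun _ _ => norm_nonneg _) fun z' hz' => ?_
        rw [Finset.mem_erase] at hz'
        have h2 := sep z hz z' hz'.2 (Ne.symm hz'.1)
        have h3 := norm_sub_le ζ z'
        have h4 := hs z' hz'.2
        rw [norm_div]
        exact div_le_div₀ (by positivity) (by linarith) hσ h2
      refine h1.trans (pow_le_pow_right₀ hE1 ?_)
      exact Finset.card_le_card (Finset.erase_subset _ _)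
    calc ∑ z ∈ s, ‖f z * ∏ z' ∈ s.erase z, (ζ - z') / (z - z')‖
        ≤ ∑ _z ∈ s, δ * (8 * r / σ) ^ s.card := Finset.sum_le_sum hterm
      _ = X := by
          rw [Finset.sum_const, nsmul_eq_mul, hX]
          ring
  have hQz : ∀ z ∈ s, Q z = f z := by
    intro z hz
    change ∑ y ∈ s, f y * ∏ z' ∈ s.erase y, (z - z') / (y - z') = f z
    rw [Finset.sum_eq_single z]
    · rw [Finset.prod_eq_one, mul_one]
      intro z' hz'
      rw [Finset.mem_erase] at hz'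
      exact div_self (sub_ne_zero.2 (Ne.symm hz'.1))
    · intro y _ hyz
      rw [Finset.prod_eq_zero (i := z) (Finset.mem_erase.2 ⟨Ne.symm hyz, hz⟩), mul_zero]
      rw [sub_self, zero_div]
    · intro h
      exact absurd hz h
  have hg := Sch_exact s (g := fun ζ => f ζ - Q ζ) (hf.sub hQd) hr hs
    (fun z hz => by
      change f z - Q z = 0
      rw [hQz z hz, sub_self])
    (G := B + X)
    (fun z hz => (norm_sub_le _ _).trans (add_le_add (hB z hz) (hQB z hz))) hw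
  have hw7 : ‖w‖ ≤ 7 * r := by linarith
  have h1 : ‖f w‖ ≤ ‖f w - Q w‖ + ‖Q w‖ := by
    have := norm_add_le (f w - Q w) (Q w)
    rwa [sub_add_cancel] at this
  have h2 := hQB w hw7
  have h3 : (1 / 3 : ℝ) ^ s.card ≤ 1 := pow_le_one₀ (by norm_num) (by norm_num)
  have h4 : X * (1 / 3) ^ s.card ≤ X := by
    calc X * (1 / 3) ^ s.card ≤ X * 1 := mul_le_mul_of_nonneg_left h3 hX0
      _ = X := mul_one X
  have h5 : (B + X) * (1 / 3) ^ s.card = B * (1 / 3) ^ s.card + X * (1 / 3) ^ s.card := by ring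
  have h6 : 2 * s.card * δ * (8 * r / σ) ^ s.card = 2 * X := by
    rw [hX]
    ring
  rw [h6]
  have hg' : ‖f w - Q w‖ ≤ (B + X) * (1 / 3) ^ s.card := hg
  rw [h5] at hg'
  linarith

end Pool.Agent.LGO.PS.E6
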