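import Mathlib
import Pool.Agent.LGO.PS.E6.Defs
import Pool.Agent.LGO.PS.E6.Sch
import Pool.Agent.LGO.PS.E6.Fun
import Pool.Agent.LGO.PS.E6.Aux6
import Pool.Agent.LGO.Mul.Ht

/-!
# LGO/PS/E6: the extrapolation step

PROOF.  Write `G = G6 V V0 b ‖λ‖ P L0 L1 S'`, `δ = ‖λ be - 2 π i‖`.  `G ≥ log (L0 L1) ≥ 0`-type facts: all summands of `G` are `≥ 0`
(`P ≥ 1`, `S' ≥ 1`, `b ≥ 1`), `L0 ≤ e ^ G`, `L1 ≤ e ^ G`, `2 S' ≤ (2 S') ^ L0 ≤ e ^ G`.  Suppose that `val s₁ s₁' ≠ 0`, `s₁, s₁' < S'`.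
Liouville: `val_bd` for `S'`, `Bd.lower` (`LGO/Mul/Ht.lean`, identity embedding, as in `MeasG`): `‖val s₁ s₁'‖ ≥ e ^ (-(2 D G))`
(the bound of `val_bd` is at most `G`).
`fn_near` for `S'` (`L1 S' δ ≤ 1`): `‖fn(s + s' be) - val s s'‖ ≤ e ^ (3 G) δ` for all `s, s' < S'`
(`S' (1 + ‖be‖) ≤ 14 b S'`, `L0 L1 P (14 b S') ^ L0 e ^ (V0 S' L1) ≤ e ^ G`, `2 L1 S' ≤ e ^ (2 G)`).
Let `s` be the image of `Fin S × Fin S` under `(s, s') ↦ s + s' be`: `S ^ 2` different points (`sep`), norms `≤ r = 2 b S'`,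
separated by `σ = e ^ (-c) ≤ 1 ≤ r`, where `‖fn‖ ≤ e ^ (3 G) δ`.  `fn_growth` with `R = 7 r = 14 b S'`: `‖fn‖ ≤ e ^ G` for `‖z‖ ≤ 7 r`.
`sch6` for `w = s₁ + s₁' be`: `‖fn w‖ ≤ e ^ G 3 ^ (-S ^ 2) + 2 S ^ 2 e ^ (3 G) δ (16 b S' e ^ c) ^ (S ^ 2)`.  So
`‖val s₁ s₁'‖ ≤ e ^ (G - S ^ 2) + (2 S ^ 2 + 1) e ^ (3 G) δ e ^ (S ^ 2 (log (16 b S') + c))`
`≤ e ^ (-(2 D + 1) G - 4) + e ^ (-(2 D + 3) G - 6) < e ^ (-(2 D G))` (`2 S ^ 2 + 1 ≤ e ^ (2 G)` because `S ≤ S' ≤ e ^ G / 2` and `1 ≤ e ^ (2 G) / 2`),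
a contradiction.
-/

namespace Pool.Agent.LGO.PS.E6

open Pool.Agent.LGO

theorem step6 {lam be al : ℂ} (hal : Complex.exp lam = al) {K : IntermediateField ℚ ℂ} [FiniteDimensional ℚ K]
    {D V V0 P b c : ℝ} (hD : (Module.finrank ℚ K : ℝ) ≤ D) (hV : 0 ≤ V) (hV0 : 0 ≤ V0) (hbe : Bd K V be)
    (ha : Bd K V0 al) (hb1 : 1 ≤ b) (hb : ‖be‖ ≤ b) (hc : 0 ≤ c) {L0 L1 S S' : ℕ} (h0 : 0 < L0) (h1 : 0 < L1)
    (hS : 0 < S) (hSS : S ≤ S') {p : ℕ → ℕ → ℤ} (hP : 1 ≤ P) (hp : ∀ i j, |(p i j : ℝ)| ≤ P)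
    (sep : ∀ x y : ℤ, |x| ≤ S → |y| ≤ S → (x ≠ 0 ∨ y ≠ 0) → Real.exp (-c) ≤ ‖(x : ℂ) + y * be‖)
    (hnum : (2 * D + 2) * G6 V V0 b ‖lam‖ P L0 L1 S' + 4 ≤ (S : ℝ) ^ 2)
    (hδ : ‖lam * be - 2 * Real.pi * Complex.I‖ ≤ Real.exp (-((2 * D + 8) * G6 V V0 b ‖lam‖ P L0 L1 S' +
      (S : ℝ) ^ 2 * (Real.log (16 * b * S') + c) + 6)))
    (hz : ∀ s < S, ∀ s' < S, val be al L0 L1 p s s' = 0) : ∀ s < S', ∀ s' < S', val be al L0 L1 p s s' = 0 := by
  classical
  set l : ℝ := ‖lam‖ with hl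
  set G : ℝ := G6 V V0 b l P L0 L1 S' with hG
  set δ : ℝ := ‖lam * be - 2 * Real.pi * Complex.I‖ with hδd
  have hGe : G = Real.log P + Real.log (L0 * L1) + H6 V V0 L0 L1 S' + L0 * Real.log (14 * b * S') +
      14 * b * L1 * l * S' := rfl
  have hHe : H6 V V0 L0 L1 S' = L0 * (2 * V + Real.log (2 * S')) + 2 * S' * L1 * V0 := rfl
  have hS' : 0 < S' := hS.trans_le hSS
  have hS'1 : (1 : ℝ) ≤ S' := by exact_mod_cast hS'
  have hSSr : (S : ℝ) ≤ S' := by exact_mod_cast hSS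
  have hSr : (1 : ℝ) ≤ S := by exact_mod_cast hS
  have hL0 : (1 : ℝ) ≤ L0 := by exact_mod_cast h0
  have hL1 : (1 : ℝ) ≤ L1 := by exact_mod_cast h1
  have hb0 : 0 < b := by linarith
  have hl0 : 0 ≤ l := norm_nonneg _
  have hδ0 : 0 ≤ δ := norm_nonneg _
  have hD1 : 1 ≤ D := by
    have h2 : (1 : ℝ) ≤ Module.finrank ℚ K := by exact_mod_cast (Module.finrank_pos (R := ℚ) (M := K))
    linarith
  have hlogP : 0 ≤ Real.log P := Real.log_nonneg hP
  have hLL : (1 : ℝ) ≤ (L0 : ℝ) * L1 := one_le_mul_of_one_le_of_one_le hL0 hL1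
  have hlogL : 0 ≤ Real.log ((L0 : ℝ) * L1) := Real.log_nonneg hLL
  have hlog2 : 0 ≤ Real.log (2 * (S' : ℝ)) := Real.log_nonneg (by linarith)
  have hbS : (1 : ℝ) ≤ b * S' := one_le_mul_of_one_le_of_one_le hb1 hS'1
  have h14 : (1 : ℝ) ≤ 14 * b * S' := by linarith only [hbS]
  have hlog14 : 0 ≤ Real.log (14 * b * S') := Real.log_nonneg h14
  have hH1 : 0 ≤ 2 * (S' : ℝ) * L1 * V0 := by positivity
  have hH2 : 0 ≤ (L0 : ℝ) * (2 * V + Real.log (2 * S')) := by positivity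
  have hH : 0 ≤ H6 V V0 L0 L1 S' := by rw [hHe]; linarith
  have hG4 : 0 ≤ (L0 : ℝ) * Real.log (14 * b * S') := by positivity
  have hG5 : 0 ≤ 14 * b * L1 * l * S' := by positivity
  have hG0 : 0 ≤ G := by rw [hGe]; linarith
  -- simple bounds by `exp G`
  have hL1G : (L1 : ℝ) ≤ Real.exp G := by
    calc (L1 : ℝ) ≤ (L0 : ℝ) * L1 := le_mul_of_one_le_left (by linarith only [hL1]) hL0
      _ = Real.exp (Real.log ((L0 : ℝ) * L1)) := by rw [Real.exp_log (by linarith)]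
      _ ≤ Real.exp G := Real.exp_le_exp.2 (by rw [hGe]; linarith)
  have h2SG : 2 * (S' : ℝ) ≤ Real.exp G := by
    calc 2 * (S' : ℝ) = Real.exp (Real.log (2 * (S' : ℝ))) := by rw [Real.exp_log (by linarith)]
      _ ≤ Real.exp G := by
          apply Real.exp_le_exp.2
          have h3 : Real.log (2 * (S' : ℝ)) ≤ L0 * (2 * V + Real.log (2 * S')) := by
            linarith only [hV, mul_nonneg (sub_nonneg.2 hL0) (add_nonneg (mul_nonneg (zero_le_two (α := ℝ)) hV) hlog2)]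
          rw [hGe, hHe]
          linarith
  have key : ∀ x : ℝ, Real.log P + Real.log ((L0 : ℝ) * L1) + L0 * Real.log (14 * b * S') + x ≤ G →
      (L0 : ℝ) * L1 * P * ((14 * b * S') ^ L0 * Real.exp x) ≤ Real.exp G := by
    intro x hx
    have e1 : (L0 : ℝ) * L1 * P * ((14 * b * S') ^ L0 * Real.exp x) =
        Real.exp (Real.log P + Real.log ((L0 : ℝ) * L1) + L0 * Real.log (14 * b * S') + x) := by
      rw [Real.exp_add, Real.exp_add, Real.exp_add, Real.exp_log (by linarith),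
        Real.exp_log (by linarith), mul_comm (L0 : ℝ) (Real.log (14 * b * S')), Real.exp_mul,
        Real.exp_log (by linarith), Real.rpow_natCast]
      ring
    rw [e1]
    exact Real.exp_le_exp.2 hx
  -- the error
  set E : ℝ := (S : ℝ) ^ 2 * (Real.log (16 * b * S') + c) with hE
  have h16 : (1 : ℝ) ≤ 16 * b * S' := by linarith only [hbS]
  have hE0 : 0 ≤ E := by
    have h3 : 0 ≤ Real.log (16 * b * S') := Real.log_nonneg h16
    positivity
  have hδ1 : Real.exp (2 * G) * δ ≤ 1 := by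
    calc Real.exp (2 * G) * δ ≤ Real.exp (2 * G) * Real.exp (-((2 * D + 8) * G + E + 6)) :=
          mul_le_mul_of_nonneg_left hδ (Real.exp_pos _).le
      _ = Real.exp (2 * G + -((2 * D + 8) * G + E + 6)) := by rw [← Real.exp_add]
      _ ≤ Real.exp 0 := by
          apply Real.exp_le_exp.2
          linarith only [mul_nonneg (by linarith : 0 ≤ D) hG0, hG0, hE0]
      _ = 1 := Real.exp_zero
  have hLS : (L1 : ℝ) * (2 * S') ≤ Real.exp (2 * G) := by
    have h3 : Real.exp (2 * G) = Real.exp G * Real.exp G := by rw [← Real.exp_add]; ring_nf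
    rw [h3]
    exact mul_le_mul hL1G h2SG (by linarith) (Real.exp_pos _).le
  have hnear1 : (L1 : ℝ) * S' * δ ≤ 1 := by
    refine le_trans ?_ hδ1
    apply mul_le_mul_of_nonneg_right _ hδ0
    refine le_trans ?_ hLS
    have h3 : 0 ≤ (L1 : ℝ) * S' := by positivity
    linarith only [h3]
  have hbe1 : 1 + ‖be‖ ≤ 2 * b := by linarith
  -- the points
  have hpt : ∀ (T s s' : ℕ), s < T → s' < T → T ≤ S' → ‖(s : ℂ) + s' * be‖ ≤ 2 * b * S' := by
    intro T s s' hs hs' hT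
    have h3 : (s : ℝ) ≤ S' := by exact_mod_cast (hs.le.trans hT)
    have h4 : (s' : ℝ) ≤ S' := by exact_mod_cast (hs'.le.trans hT)
    calc ‖(s : ℂ) + s' * be‖ ≤ ‖(s : ℂ)‖ + ‖(s' : ℂ) * be‖ := norm_add_le _ _
      _ = s + s' * ‖be‖ := by rw [norm_mul, Complex.norm_natCast, Complex.norm_natCast]
      _ ≤ S' + S' * b := by
          apply add_le_add h3
          exact mul_le_mul h4 hb (norm_nonneg _) (by linarith)
      _ ≤ 2 * b * S' := by linarith only [mul_nonneg (sub_nonneg.2 hb1) (zero_le_one.trans hS'1)]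
  have hnear : ∀ s < S', ∀ s' < S', ‖fn lam L0 L1 p (s + s' * be) - val be al L0 L1 p s s'‖ ≤
      Real.exp (3 * G) * δ := by
    intro s hs s' hs'
    have ha' : ‖al‖ ≤ Real.exp V0 := ha.house (algebraMap K ℂ)
    refine (fn_near hal L0 L1 S' p hp hV0 ha' hnear1 hs hs').trans ?_
    have h3 : ((S' : ℝ) * (1 + ‖be‖)) ^ L0 ≤ (14 * b * S') ^ L0 := by
      apply pow_le_pow_left₀ (by positivity)
      linarith only [mul_nonneg (zero_le_one.trans hS'1) (sub_nonneg.2 hbe1), hbS]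
    have h4 : (L0 : ℝ) * L1 * P * ((S' * (1 + ‖be‖)) ^ L0 * Real.exp (V0 * S' * L1)) ≤ Real.exp G := by
      refine le_trans ?_ (key (V0 * S' * L1) ?_)
      · apply mul_le_mul_of_nonneg_left _ (by positivity)
        exact mul_le_mul_of_nonneg_right h3 (Real.exp_pos _).le
      · rw [hGe, hHe]
        linarith only [hH1, hH2, hG5]
    have h5 : 2 * ((L1 : ℝ) * S' * δ) ≤ Real.exp (2 * G) * δ := by
      have h6 : 2 * ((L1 : ℝ) * S' * δ) = (L1 : ℝ) * (2 * S') * δ := by ring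
      rw [h6]
      exact mul_le_mul_of_nonneg_right hLS hδ0
    calc _ ≤ Real.exp G * (Real.exp (2 * G) * δ) :=
          mul_le_mul h4 h5 (by positivity) (Real.exp_pos _).le
      _ = Real.exp (3 * G) * δ := by
          rw [← mul_assoc, ← Real.exp_add]
          ring_nf
  have hgrow : ∀ z : ℂ, ‖z‖ ≤ 7 * (2 * b * S') → ‖fn lam L0 L1 p z‖ ≤ Real.exp G := by
    intro z hz'
    have h3 : ‖z‖ ≤ 14 * b * S' := by linarith
    refine (fn_growth lam L0 L1 p hp h14 h3).trans ?_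
    apply key
    rw [hGe]
    have h4 : (L1 : ℝ) * ‖lam‖ * (14 * b * S') = 14 * b * L1 * l * S' := by rw [← hl]; ring
    rw [h4]
    linarith
  -- the finite set of approximate zeros
  set φ : Fin S × Fin S → ℂ := fun q => ((q.1 : ℕ) : ℂ) + ((q.2 : ℕ) : ℂ) * be with hφ
  have hdiff : ∀ q q' : Fin S × Fin S, q ≠ q' → Real.exp (-c) ≤ ‖φ q - φ q'‖ := by
    intro q q' hqq
    have h3 : φ q - φ q' = (((q.1 : ℕ) : ℤ) - ((q'.1 : ℕ) : ℤ) : ℤ) + (((q.2 : ℕ) : ℤ) - ((q'.2 : ℕ) : ℤ) : ℤ) * be := by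
      rw [hφ]
      push_cast
      ring
    rw [h3]
    have a1 := q.1.2
    have a2 := q.2.2
    have a3 := q'.1.2
    have a4 := q'.2.2
    apply sep
    · rw [abs_le]
      constructor <;> omega
    · rw [abs_le]
      constructor <;> omega
    · by_contra hcon
      rw [not_or, not_not, not_not] at hcon
      apply hqq
      apply Prod.ext
      · apply Fin.ext
        have := hcon.1
        omega
      · apply Fin.ext
        have := hcon.2
        omega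
  have hinj : Function.Injective φ := by
    intro q q' h3
    by_contra hne
    have h4 := hdiff q q' hne
    rw [h3, sub_self, norm_zero] at h4
    exact absurd h4 (not_le.2 (Real.exp_pos _))
  set s₀ : Finset ℂ := Finset.univ.image φ with hs₀
  have hcard : s₀.card = S ^ 2 := by
    rw [hs₀, Finset.card_image_of_injective _ hinj, Finset.card_univ, Fintype.card_prod,
      Fintype.card_fin, sq]
  intro s₁ hs₁ s₁' hs₁'
  by_contra hne
  have hVB := (val_bd hV hV0 hbe ha h0 h1 hP hp hs₁ hs₁').mono (B' := G) (by rw [hGe]; linarith)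
  have hlow := Bd.lower hD hG0 hVB hne (algebraMap K ℂ)
  have hlow' : Real.exp (-(2 * D * G)) ≤ ‖val be al L0 L1 p s₁ s₁'‖ := hlow
  have hsch := sch6 (fn_diff lam L0 L1 p) s₀ (r := 2 * b * S') (B := Real.exp G)
    (δ := Real.exp (3 * G) * δ) (σ := Real.exp (-c)) (by positivity) (Real.exp_pos _)
    (by
      have h3 : Real.exp (-c) ≤ 1 := Real.exp_le_one_iff.2 (by linarith only [hc])
      linarith only [h3, hbS])
    (by
      intro z hz'
      rw [hs₀, Finset.mem_image] at hz'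
      obtain ⟨q, -, rfl⟩ := hz'
      exact hpt S _ _ q.1.2 q.2.2 hSS)
    hgrow (by positivity)
    (by
      intro z hz'
      rw [hs₀, Finset.mem_image] at hz'
      obtain ⟨q, -, rfl⟩ := hz'
      have h3 := hnear _ (q.1.2.trans_le hSS) _ (q.2.2.trans_le hSS)
      rw [hz _ q.1.2 _ q.2.2, sub_zero] at h3
      exact h3)
    (by
      intro z hz' w hw' hzw
      rw [hs₀, Finset.mem_image] at hz' hw'
      obtain ⟨q, -, rfl⟩ := hz'
      obtain ⟨q', -, rfl⟩ := hw'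
      apply hdiff
      rintro rfl
      exact hzw rfl)
    (w := (s₁ : ℂ) + s₁' * be) (hpt S' _ _ hs₁ hs₁' le_rfl)
  rw [hcard] at hsch
  have hn1 := hnear _ hs₁ _ hs₁'
  have hval : ‖val be al L0 L1 p s₁ s₁'‖ ≤ ‖fn lam L0 L1 p (s₁ + s₁' * be)‖ + Real.exp (3 * G) * δ := by
    have h3 : val be al L0 L1 p s₁ s₁' = fn lam L0 L1 p (s₁ + s₁' * be) -
        (fn lam L0 L1 p (s₁ + s₁' * be) - val be al L0 L1 p s₁ s₁') := by ring
    calc ‖val be al L0 L1 p s₁ s₁'‖ = ‖fn lam L0 L1 p (s₁ + s₁' * be) -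
        (fn lam L0 L1 p (s₁ + s₁' * be) - val be al L0 L1 p s₁ s₁')‖ := by rw [← h3]
      _ ≤ ‖fn lam L0 L1 p (s₁ + s₁' * be)‖ +
          ‖fn lam L0 L1 p (s₁ + s₁' * be) - val be al L0 L1 p s₁ s₁'‖ := norm_sub_le _ _
      _ ≤ _ := by linarith
  -- first term
  have t1 : Real.exp G * (1 / 3) ^ (S ^ 2) ≤ Real.exp (-(2 * D * G)) * Real.exp (-4) := by
    have h3 : (1 / 3 : ℝ) ≤ Real.exp (-1) := by
      rw [Real.exp_neg, ← one_div]
      apply one_div_le_one_div_of_le (Real.exp_pos _)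
      linarith [Real.exp_one_lt_d9]
    calc Real.exp G * (1 / 3) ^ (S ^ 2) ≤ Real.exp G * Real.exp (-1) ^ (S ^ 2) :=
          mul_le_mul_of_nonneg_left (pow_le_pow_left₀ (by norm_num) h3 _) (Real.exp_pos _).le
      _ = Real.exp (G + ((S ^ 2 : ℕ) : ℝ) * (-1)) := by rw [← Real.exp_nat_mul, ← Real.exp_add]
      _ ≤ Real.exp (-(2 * D * G) + -4) := by
          apply Real.exp_le_exp.2
          push_cast
          linarith only [hnum, hG0]
      _ = _ := Real.exp_add _ _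
  -- second term
  have h2G : (4 : ℝ) ≤ Real.exp (2 * G) ∧ 4 * (S : ℝ) ^ 2 ≤ Real.exp (2 * G) := by
    have h3 : Real.exp (2 * G) = Real.exp G * Real.exp G := by rw [← Real.exp_add]; ring_nf
    have h4 : (2 * (S' : ℝ)) * (2 * S') ≤ Real.exp G * Real.exp G :=
      mul_le_mul h2SG h2SG (by linarith) (Real.exp_pos _).le
    have h5 : (1 : ℝ) ≤ (S' : ℝ) * S' := one_le_mul_of_one_le_of_one_le hS'1 hS'1
    have h6 : (S : ℝ) ^ 2 ≤ (S' : ℝ) * S' := by
      rw [sq]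
      exact mul_le_mul hSSr hSSr (by linarith only [hSr]) (by linarith only [hS'1])
    constructor
    · rw [h3]; linarith only [h4, h5]
    · rw [h3]; linarith only [h4, h6]
  have hpw : (8 * (2 * b * S') / Real.exp (-c)) ^ (S ^ 2) = Real.exp E := by
    have h3 : 8 * (2 * b * S') / Real.exp (-c) = Real.exp (Real.log (16 * b * S') + c) := by
      rw [Real.exp_add, Real.exp_log (by linarith), Real.exp_neg, div_inv_eq_mul]
      ring
    rw [h3, ← Real.exp_nat_mul, hE]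
    push_cast
    rfl
  have hδ3 : Real.exp (3 * G) * δ * Real.exp E ≤ Real.exp (-((2 * D + 5) * G + 6)) := by
    calc Real.exp (3 * G) * δ * Real.exp E ≤
        Real.exp (3 * G) * Real.exp (-((2 * D + 8) * G + E + 6)) * Real.exp E := by gcongr
      _ = Real.exp (-((2 * D + 5) * G + 6)) := by
          rw [← Real.exp_add, ← Real.exp_add]
          ring_nf
  have t2 : 2 * ((S ^ 2 : ℕ) : ℝ) * (Real.exp (3 * G) * δ) *
      (8 * (2 * b * S') / Real.exp (-c)) ^ (S ^ 2) + Real.exp (3 * G) * δ ≤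
      Real.exp (-(2 * D * G)) * Real.exp (-6) := by
    rw [hpw]
    have h3 : Real.exp (3 * G) * δ ≤ Real.exp (3 * G) * δ * Real.exp E :=
      le_mul_of_one_le_right (by positivity) (Real.one_le_exp hE0)
    push_cast
    calc 2 * (S : ℝ) ^ 2 * (Real.exp (3 * G) * δ) * Real.exp E + Real.exp (3 * G) * δ
        ≤ (2 * (S : ℝ) ^ 2 + 1) * (Real.exp (3 * G) * δ * Real.exp E) := by linarith only [h3]
      _ ≤ Real.exp (2 * G) * Real.exp (-((2 * D + 5) * G + 6)) := by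
          apply mul_le_mul _ hδ3 (by positivity) (Real.exp_pos _).le
          linarith [h2G.1, h2G.2]
      _ = Real.exp (-((2 * D + 3) * G + 6)) := by
          rw [← Real.exp_add]
          ring_nf
      _ ≤ Real.exp (-(2 * D * G) + -6) := by
          apply Real.exp_le_exp.2
          linarith only [hG0]
      _ = _ := Real.exp_add _ _
  have t3 : Real.exp (-4) + Real.exp (-6) < 1 := by
    have h3 : Real.exp (-1) < 1 / 2 := by
      rw [Real.exp_neg, ← one_div]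
      apply one_div_lt_one_div_of_lt (by norm_num)
      linarith [Real.exp_one_gt_d9]
    have h4 : Real.exp (-4) ≤ Real.exp (-1) := Real.exp_le_exp.2 (by norm_num)
    have h5 : Real.exp (-6) ≤ Real.exp (-1) := Real.exp_le_exp.2 (by norm_num)
    linarith
  have hpos : 0 < Real.exp (-(2 * D * G)) := Real.exp_pos _
  have hfin : ‖val be al L0 L1 p s₁ s₁'‖ ≤
      Real.exp (-(2 * D * G)) * (Real.exp (-4) + Real.exp (-6)) := by
    calc ‖val be al L0 L1 p s₁ s₁'‖ ≤ ‖fn lam L0 L1 p (s₁ + s₁' * be)‖ + Real.exp (3 * G) * δ := hval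
      _ ≤ Real.exp G * (1 / 3) ^ (S ^ 2) + (2 * ((S ^ 2 : ℕ) : ℝ) * (Real.exp (3 * G) * δ) *
          (8 * (2 * b * S') / Real.exp (-c)) ^ (S ^ 2) + Real.exp (3 * G) * δ) := by linarith
      _ ≤ Real.exp (-(2 * D * G)) * Real.exp (-4) + Real.exp (-(2 * D * G)) * Real.exp (-6) :=
          add_le_add t1 t2
      _ = _ := by ring
  have : Real.exp (-(2 * D * G)) * (Real.exp (-4) + Real.exp (-6)) < Real.exp (-(2 * D * G)) * 1 :=
    mul_lt_mul_of_pos_left t3 hpos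
  linarith

end Pool.Agent.LGO.PS.E6
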