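import Mathlib
import Pool.Agent.LGO.PS.E6.Defs

/-!
# LGO/PS/E6: zero estimate

PROOF.  Fix `s < S`: the polynomial `∑ i < L0, (∑ j < L1, p i j al ^ (s j)) X ^ i` has degree `< L0` and the `S ≥ L0` distinct
(`be ≠ 0`) roots `s + s' be`, `s' < S`: it is `0` (`Polynomial.card_roots'`, or
`Polynomial.eq_zero_of_natDegree_lt_card_of_eval_eq_zero`).  So for every `i < L0` the polynomial
`∑ j < L1, p i j Y ^ j` has the roots `al ^ s`, `s < S`, which are distinct (`al ^ s = al ^ s'`, `s < s'`, gives `al ^ (s' - s) = 1`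
because `al ≠ 0`), and degree `< L1 ≤ S`: it is `0`, and `p i j = 0`.
-/

namespace Pool.Agent.LGO.PS.E6

open Polynomial in
private theorem Zero_poly {L S : ℕ} (hL : L ≤ S) (c : ℕ → ℂ) (f : ℕ → ℂ)
    (hf : ∀ a < S, ∀ b < S, f a = f b → a = b)
    (h : ∀ a < S, ∑ i ∈ Finset.range L, c i * f a ^ i = 0) : ∀ i < L, c i = 0 := by
  intro i hi
  set P : ℂ[X] := ∑ i ∈ Finset.range L, C (c i) * X ^ i with hP
  have hdeg : P.natDegree ≤ L - 1 := by
    refine Polynomial.natDegree_sum_le_of_forall_le _ _ ?_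
    intro j hj
    have := Finset.mem_range.1 hj
    exact (Polynomial.natDegree_C_mul_X_pow_le _ _).trans (by omega)
  have hz : P = 0 := by
    refine Polynomial.eq_zero_of_natDegree_lt_card_of_eval_eq_zero P (ι := Fin S) (f := fun a => f a) ?_ ?_ ?_
    · intro a b hab
      exact Fin.ext (hf _ a.2 _ b.2 hab)
    · intro a
      rw [hP, Polynomial.eval_finsetSum]
      simpa using h a a.2
    · rw [Fintype.card_fin]
      omega
  have hc : P.coeff i = c i := by
    rw [hP, Polynomial.finsetSum_coeff]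
    simp [Polynomial.coeff_X_pow, hi]
  rw [← hc, hz, Polynomial.coeff_zero]

private theorem Zero_pow_lt {al : ℂ} (ha0 : al ≠ 0) (hroot : ∀ n : ℕ, 0 < n → al ^ n ≠ 1) {a b : ℕ} (hab : a < b) :
    al ^ a ≠ al ^ b := by
  intro h
  have h1 : al ^ b = al ^ a * al ^ (b - a) := by rw [← pow_add]; congr 1; omega
  rw [h1] at h
  have h2 : al ^ (b - a) = 1 := by
    have h3 : al ^ a ≠ 0 := pow_ne_zero _ ha0
    have h4 : al ^ a * 1 = al ^ a * al ^ (b - a) := by rw [mul_one]; exact h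
    exact (mul_left_cancel₀ h3 h4).symm
  exact hroot _ (by omega) h2

theorem zero6 {al be : ℂ} (ha0 : al ≠ 0) (hroot : ∀ n : ℕ, 0 < n → al ^ n ≠ 1) (hbe : be ≠ 0) {L0 L1 S : ℕ}
    (h0 : L0 ≤ S) (h1 : L1 ≤ S) {p : ℕ → ℕ → ℤ} (h : ∀ s < S, ∀ s' < S, val be al L0 L1 p s s' = 0) :
    ∀ i < L0, ∀ j < L1, p i j = 0 := by
  have hinj : ∀ a < S, ∀ b < S, al ^ a = al ^ b → a = b := by
    intro a _ b _ hab
    rcases lt_trichotomy a b with hlt | heq | hgt
    · exact absurd hab (Zero_pow_lt ha0 hroot hlt)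
    · exact heq
    · exact absurd hab.symm (Zero_pow_lt ha0 hroot hgt)
  have h2 : ∀ s < S, ∀ i < L0, ∑ j ∈ Finset.range L1, (p i j : ℂ) * al ^ (s * j) = 0 := by
    intro s hs
    refine Zero_poly h0 (fun i => ∑ j ∈ Finset.range L1, (p i j : ℂ) * al ^ (s * j))
      (fun s' => (s : ℂ) + s' * be) ?_ ?_
    · intro a _ b _ hab
      have h3 : (a : ℂ) * be = b * be := add_left_cancel hab
      exact_mod_cast mul_right_cancel₀ hbe h3
    · intro s' hs'
      have h3 := h s hs s' hs'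
      unfold val at h3
      rw [← h3]
      refine Finset.sum_congr rfl fun i _ => ?_
      rw [Finset.sum_mul]
      refine Finset.sum_congr rfl fun j _ => ?_
      ring
  intro i hi j hj
  have h3 := Zero_poly h1 (fun j => (p i j : ℂ)) (fun s => al ^ s) hinj (by
    intro s hs
    have h4 := h2 s hs i hi
    rw [← h4]
    refine Finset.sum_congr rfl fun j _ => ?_
    rw [pow_mul]) j hj
  exact_mod_cast h3

end Pool.Agent.LGO.PS.E6
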