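import Mathlib
import Pool.Agent.LGO.PS.E6.Sep
import Pool.Agent.LGO.PS.E6.Zero
import Pool.Agent.LGO.PS.E6.Step
import Pool.Agent.LGO.PS.E6.Num
import Pool.Agent.LGO.CM.Inv

/-!
# LGO/PS/E6: engine 6

PROOF.  `al = e ^ λ`, `λ ≠ 0`.  `K₀ = ℚ⟮al⟯`, `d₀ = [K₀ : ℚ]`; `Quad_bd_alg` (`LGO/Q/Quad.lean`): `Bd F V0 al` for every `F ∋ al`.  `sep6` gives `C₁`.
`C0` = maximum of `3`, `d₀`, `V0`, `2 π / ‖λ‖ + 1`, `‖λ‖`, `C₁`; `num6` gives `C₂`.  Suppose `‖c λ - 2 π i θ‖ < e ^ (-((C M) ^ C))` with `C` large.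
`‖c λ‖ ≥ ‖λ‖` (`c ≠ 0`), so `2 π ‖θ‖ ≥ ‖λ‖ / 2`, `θ ≠ 0`; `be = c / θ`, `K' = K ⊔ K₀`, `[K' : ℚ] ≤ d₀ M ≤ C0 M` (`IntermediateField.finrank_sup_le`).
`Bd K' (3 M ^ 2) be`: `Bd.inv` (`LGO/CM/Inv.lean`) in `K` with `D = h = M`: `Bd K (2 M ^ 2) θ⁻¹`, `Bd.intCast`: `Bd K M c`, `Bd.mul`, `Bd.le`.
`δ = ‖λ be - 2 π i‖ = ‖c λ - 2 π i θ‖ / ‖θ‖ ≤ (4 π / ‖λ‖) e ^ (-((C M) ^ C)) ≤ e ^ (-(m ^ 54))` (`m ≤ C₂ M`; `C` large).  `‖be‖ ≤ (2 π + δ) / ‖λ‖ ≤ b := 2 π / ‖λ‖ + 1`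
(replace `b` by its maximum with `1`).
`aux6` for `K'`, `L0 = m ^ 22`, `L1 = m ^ 8`, `S = m ^ 14` (the inequality of `num6`); `step6` twice (`D = C0 M`, `c = C0 S`, `sep` from `sep6`: `C₁ ≤ C0`, `δ ≤ e ^ (-(C0 S))`
because `C0 S ≤ m ^ 54`; monotonicity in the constant); `zero6` with `S₂ = m ^ 23 ≥ m ^ 22, m ^ 8`, `be ≠ 0` (`c ≠ 0`): all `p i j = 0`, a contradiction.
-/

namespace Pool.Agent.LGO.PS.E6

open Pool.Agent.LGO

private theorem Main_pow {x y : ℝ} (hx : 0 ≤ x) (hy : 0 ≤ y) (n : ℕ) (hn : n ≠ 0) :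
    x ^ n + y ^ n ≤ (x + y) ^ n := by
  obtain ⟨k, rfl⟩ : ∃ k, n = k + 1 := ⟨n - 1, by omega⟩
  have h1 : x ^ k ≤ (x + y) ^ k := pow_le_pow_left₀ hx (by linarith) k
  have h2 : y ^ k ≤ (x + y) ^ k := pow_le_pow_left₀ hy (by linarith) k
  calc x ^ (k + 1) + y ^ (k + 1) = x ^ k * x + y ^ k * y := by rw [pow_succ, pow_succ]
    _ ≤ (x + y) ^ k * x + (x + y) ^ k * y :=
      add_le_add (mul_le_mul_of_nonneg_right h1 hx) (mul_le_mul_of_nonneg_right h2 hy)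
    _ = (x + y) ^ (k + 1) := by rw [pow_succ]; ring

/-- **Engine 6** (measure of Gelfond type): `e ^ λ` algebraic, not a root of unity -/
theorem engine6 (lam : ℂ) (hal : IsAlgebraic ℚ (Complex.exp lam))
    (hroot : ∀ n : ℕ, 0 < n → Complex.exp lam ^ n ≠ 1) : ∃ C : ℕ, 1 ≤ C ∧
    ∀ (K : IntermediateField ℚ ℂ) [FiniteDimensional ℚ K] (M : ℝ) (c : ℤ) (th : ℂ), 2 ≤ M →
      (Module.finrank ℚ K : ℝ) ≤ M → c ≠ 0 → |(c : ℝ)| ≤ Real.exp M → Bd K M th →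
      Real.exp (-((C * M) ^ C)) ≤ ‖(c : ℂ) * lam - 2 * Real.pi * Complex.I * th‖ := by
  have hlam : lam ≠ 0 := by
    intro h
    apply hroot 1 one_pos
    rw [h, Complex.exp_zero, one_pow]
  have hl0 : 0 < ‖lam‖ := norm_pos_iff.2 hlam
  set al : ℂ := Complex.exp lam with hal_def
  have hal0 : al ≠ 0 := Complex.exp_ne_zero lam
  set K₀ : IntermediateField ℚ ℂ := IntermediateField.adjoin ℚ {al} with hK₀
  have hfd₀ : FiniteDimensional ℚ K₀ := IntermediateField.adjoin.finiteDimensional hal.isIntegral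
  have hmem₀ : al ∈ K₀ := IntermediateField.mem_adjoin_simple_self ℚ al
  obtain ⟨V0, hV0, hV0B⟩ := Quad_bd_alg hal
  obtain ⟨C₁, hC₁, hsep⟩ := sep6 hal hroot
  set b : ℝ := max 1 ((2 * Real.pi + 1) / ‖lam‖) with hb
  set d₀ : ℕ := Module.finrank ℚ K₀ with hd₀
  set C0 : ℝ := max 3 (max d₀ (max V0 (max b (max ‖lam‖ C₁)))) with hC0
  have c3 : 3 ≤ C0 := le_max_left _ _
  have cd : (d₀ : ℝ) ≤ C0 := (le_max_left _ _).trans (le_max_right _ _)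
  have cV : V0 ≤ C0 := (le_max_left _ _).trans ((le_max_right _ _).trans (le_max_right _ _))
  have cb : b ≤ C0 := (le_max_left _ _).trans ((le_max_right _ _).trans
    ((le_max_right _ _).trans (le_max_right _ _)))
  have cl : ‖lam‖ ≤ C0 := (le_max_left _ _).trans ((le_max_right _ _).trans
    ((le_max_right _ _).trans ((le_max_right _ _).trans (le_max_right _ _))))
  have c1 : C₁ ≤ C0 := (le_max_right _ _).trans ((le_max_right _ _).trans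
    ((le_max_right _ _).trans ((le_max_right _ _).trans (le_max_right _ _))))
  obtain ⟨Cn, hCn, hnum⟩ := num6 (C0 := C0) (by linarith)
  obtain ⟨A, hA⟩ := exists_nat_ge |Real.log (4 * Real.pi / ‖lam‖)|
  refine ⟨Cn + 54 + A, by omega, ?_⟩
  intro K _ M c th hM hfin hc hcM hth
  by_contra hcon
  push Not at hcon
  set Δ : ℝ := ‖(c : ℂ) * lam - 2 * Real.pi * Complex.I * th‖ with hΔ
  have hπ := Real.pi_pos
  have hM0 : 0 < M := by linarith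
  -- the parameters
  have hb1 : 1 ≤ b := le_max_left _ _
  obtain ⟨m, hm2, hmC, hMm, hmL, hmS⟩ := hnum M (3 * M ^ 2) V0 b ‖lam‖ hM (by positivity)
    (mul_le_mul_of_nonneg_right c3 (by positivity)) hV0 cV hb1 cb (norm_nonneg _) cl
  have hm0 : 0 < m := by omega
  have hmR : (0 : ℝ) < m := by exact_mod_cast hm0
  -- the exponent
  set CC : ℕ := Cn + 54 + A with hCC
  have hCC1 : (1 : ℝ) ≤ CC * M := by
    have : (54 : ℝ) ≤ CC := by exact_mod_cast (by omega : 54 ≤ CC)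
    nlinarith
  have hexp : (m : ℝ) ^ 54 + A ≤ (CC * M) ^ CC := by
    have h1 : ((CC : ℝ) * M) ^ 54 ≤ (CC * M) ^ CC := pow_le_pow_right₀ hCC1 (by omega)
    have h2 : (CC : ℝ) * M = Cn * M + (54 + A) * M := by
      rw [hCC]; push_cast; ring
    have h3 : ((Cn : ℝ) * M) ^ 54 + ((54 + A) * M) ^ 54 ≤ ((CC : ℝ) * M) ^ 54 := by
      rw [h2]
      exact Main_pow (by positivity) (by positivity) 54 (by norm_num)
    have h4 : (m : ℝ) ^ 54 ≤ ((Cn : ℝ) * M) ^ 54 := pow_le_pow_left₀ hmR.le hmC 54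
    have h5 : (A : ℝ) ≤ ((54 + A) * M) ^ 54 := by
      have hA0 : (0 : ℝ) ≤ A := Nat.cast_nonneg A
      have h6 : (1 : ℝ) ≤ (54 + A) * M := by nlinarith
      calc (A : ℝ) ≤ (54 + A) * M := by nlinarith
        _ = ((54 + A) * M) ^ 1 := (pow_one _).symm
        _ ≤ _ := pow_le_pow_right₀ h6 (by norm_num)
    linarith
  have hlog : Real.log (4 * Real.pi / ‖lam‖) ≤ A := (le_abs_self _).trans hA
  have hpos4 : 0 < 4 * Real.pi / ‖lam‖ := by positivity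
  have hE : Real.exp (-((CC * M) ^ CC)) * (4 * Real.pi / ‖lam‖) ≤ Real.exp (-((m : ℝ) ^ 54)) := by
    calc Real.exp (-((CC * M) ^ CC)) * (4 * Real.pi / ‖lam‖)
        = Real.exp (-((CC * M) ^ CC) + Real.log (4 * Real.pi / ‖lam‖)) := by
          rw [Real.exp_add, Real.exp_log hpos4]
      _ ≤ _ := Real.exp_le_exp.2 (by linarith)
  have hE1 : Real.exp (-((m : ℝ) ^ 54)) ≤ 1 := by
    rw [Real.exp_le_one_iff]
    have : (0 : ℝ) ≤ (m : ℝ) ^ 54 := by positivity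
    linarith
  have hEl : Real.exp (-((CC * M) ^ CC)) ≤ ‖lam‖ / 2 := by
    have h1 : Real.exp (-((CC * M) ^ CC)) * (4 * Real.pi / ‖lam‖) ≤ 1 := hE.trans hE1
    have h2 : Real.exp (-((CC * M) ^ CC)) ≤ ‖lam‖ / (4 * Real.pi) := by
      rw [le_div_iff₀ (by positivity)]
      rw [mul_div_assoc', div_le_one hl0] at h1
      exact h1
    refine h2.trans ?_
    apply div_le_div_of_nonneg_left hl0.le (by norm_num)
    linarith [Real.pi_gt_three]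
  -- lower bound of `th`
  have hcl : ‖lam‖ ≤ ‖(c : ℂ) * lam‖ := by
    rw [norm_mul, Complex.norm_intCast]
    have : (1 : ℝ) ≤ |(c : ℝ)| := by exact_mod_cast Int.one_le_abs hc
    nlinarith
  have h2pi : ‖2 * (Real.pi : ℂ) * Complex.I * th‖ = 2 * Real.pi * ‖th‖ := by
    rw [norm_mul, norm_mul, norm_mul, Complex.norm_I, Complex.norm_real, Real.norm_eq_abs,
      abs_of_pos hπ, Complex.norm_ofNat]
    ring
  have hthn : ‖lam‖ / (4 * Real.pi) ≤ ‖th‖ := by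
    have h1 : ‖(c : ℂ) * lam‖ ≤ Δ + 2 * Real.pi * ‖th‖ := by
      rw [← h2pi, hΔ]
      have := norm_add_le ((c : ℂ) * lam - 2 * Real.pi * Complex.I * th) (2 * Real.pi * Complex.I * th)
      rwa [sub_add_cancel] at this
    have h2 : ‖lam‖ / 2 ≤ 2 * Real.pi * ‖th‖ := by linarith
    rw [div_le_iff₀ (by positivity)]
    linarith
  have hth0 : 0 < ‖th‖ := lt_of_lt_of_le (by positivity) hthn
  have hth' : th ≠ 0 := norm_pos_iff.1 hth0
  set be : ℂ := (c : ℂ) * th⁻¹ with hbe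
  have hbe0 : be ≠ 0 := mul_ne_zero (Int.cast_ne_zero.2 hc) (inv_ne_zero hth')
  -- `δ`
  have hδe : lam * be - 2 * Real.pi * Complex.I = ((c : ℂ) * lam - 2 * Real.pi * Complex.I * th) * th⁻¹ := by
    rw [hbe]
    field_simp
  have hδ : ‖lam * be - 2 * Real.pi * Complex.I‖ ≤ Real.exp (-((m : ℝ) ^ 54)) := by
    rw [hδe, norm_mul, norm_inv]
    refine le_trans ?_ hE
    refine mul_le_mul hcon.le ?_ (by positivity) (Real.exp_pos _).le
    rw [inv_le_comm₀ hth0 hpos4, inv_div]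
    exact hthn
  have hbeb : ‖be‖ ≤ b := by
    refine le_trans ?_ (le_max_right _ _)
    rw [le_div_iff₀ hl0, mul_comm, ← norm_mul]
    have h1 := norm_add_le (lam * be - 2 * Real.pi * Complex.I) (2 * Real.pi * Complex.I)
    rw [sub_add_cancel] at h1
    have h2 : ‖2 * (Real.pi : ℂ) * Complex.I‖ = 2 * Real.pi := by
      rw [norm_mul, norm_mul, Complex.norm_I, Complex.norm_real, Real.norm_eq_abs,
        abs_of_pos hπ, Complex.norm_ofNat]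
      ring
    rw [h2] at h1
    linarith [hδ.trans hE1]
  -- the field
  set K' : IntermediateField ℚ ℂ := K ⊔ K₀ with hK'
  have hfd : FiniteDimensional ℚ K' := IntermediateField.finiteDimensional_sup K K₀
  have hfr : (Module.finrank ℚ K' : ℝ) ≤ C0 * M := by
    have h1 : Module.finrank ℚ K' ≤ Module.finrank ℚ K * d₀ := IntermediateField.finrank_sup_le K K₀
    have h2 : (Module.finrank ℚ K' : ℝ) ≤ Module.finrank ℚ K * d₀ := by exact_mod_cast h1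
    refine h2.trans ?_
    rw [mul_comm C0 M]
    exact mul_le_mul hfin cd (Nat.cast_nonneg _) hM0.le
  have hbeB : Bd K' (3 * M ^ 2) be := by
    have h1 : Bd K (2 * M * M) th⁻¹ := hth.inv hfin hM0.le hth'
    have h2 : Bd K M (c : ℂ) := Bd.intCast c hcM hM0.le
    refine ((h2.mul h1).mono ?_).le le_sup_left
    nlinarith
  have halB : Bd K' V0 al := hV0B K' ((le_sup_right : K₀ ≤ K') hmem₀)
  -- the auxiliary polynomial
  have hL0 : 0 < m ^ 22 := by positivity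
  have hL1 : 0 < m ^ 8 := by positivity
  have hS0 : 0 < m ^ 14 := by positivity
  have hL : 4 * Module.finrank ℚ K' * (m ^ 14) ^ 2 ≤ m ^ 22 * m ^ 8 := by
    have h1 : ((4 * Module.finrank ℚ K' * (m ^ 14) ^ 2 : ℕ) : ℝ) ≤ ((m ^ 22 * m ^ 8 : ℕ) : ℝ) := by
      push_cast
      refine le_trans ?_ hmL
      gcongr
    exact_mod_cast h1
  obtain ⟨p, hpne, hz0, hpb⟩ := aux6 (K := K') (V := 3 * M ^ 2) (V0 := V0) (by positivity) hV0 hbeB halB
    hL0 hL1 hS0 hL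
  set P : ℝ := 5 * (m ^ 22 : ℕ) * (m ^ 8 : ℕ) * Real.exp (H6 (3 * M ^ 2) V0 (m ^ 22) (m ^ 8) (m ^ 14)) with hP
  have hH6 : 0 ≤ H6 (3 * M ^ 2) V0 (m ^ 22) (m ^ 8) (m ^ 14) := by
    unfold H6
    have h1 : 0 ≤ Real.log (2 * ((m ^ 14 : ℕ) : ℝ)) := by
      apply Real.log_nonneg
      have : (1 : ℝ) ≤ ((m ^ 14 : ℕ) : ℝ) := by exact_mod_cast hS0
      linarith
    positivity
  have hP1 : 1 ≤ P := by
    have h1 : (1 : ℝ) ≤ ((m ^ 22 : ℕ) : ℝ) := by exact_mod_cast hL0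
    have h2 : (1 : ℝ) ≤ ((m ^ 8 : ℕ) : ℝ) := by exact_mod_cast hL1
    have h3 : 1 ≤ Real.exp (H6 (3 * M ^ 2) V0 (m ^ 22) (m ^ 8) (m ^ 14)) := Real.one_le_exp hH6
    have h4 : (1 : ℝ) ≤ 5 * ((m ^ 22 : ℕ) : ℝ) * ((m ^ 8 : ℕ) : ℝ) := by nlinarith
    rw [hP]
    nlinarith
  -- separation
  have hsepS : ∀ S : ℕ, 1 ≤ S → C0 * S ≤ (m : ℝ) ^ 54 → ∀ x y : ℤ, |x| ≤ S → |y| ≤ S →
      (x ≠ 0 ∨ y ≠ 0) → Real.exp (-(C0 * S)) ≤ ‖(x : ℂ) + y * be‖ := by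
    intro S hS hSm x y hx hy hxy
    have h1 : C₁ * S ≤ C0 * S := mul_le_mul_of_nonneg_right c1 (Nat.cast_nonneg _)
    refine le_trans (Real.exp_le_exp.2 (by linarith)) (hsep S be hS ?_ x y hx hy hxy)
    exact hδ.trans (Real.exp_le_exp.2 (by linarith))
  have step : ∀ S S' : ℕ, ((S = m ^ 14 ∧ S' = m ^ 17) ∨ (S = m ^ 17 ∧ S' = m ^ 23)) → 0 < S → S ≤ S' →
      (∀ s < S, ∀ s' < S, val be al (m ^ 22) (m ^ 8) p s s' = 0) →
        ∀ s < S', ∀ s' < S', val be al (m ^ 22) (m ^ 8) p s s' = 0 := by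
    intro S S' hSS hS hle hz
    obtain ⟨n1, n2, n3⟩ := hmS S S' hSS
    exact step6 (lam := lam) rfl (K := K') (D := C0 * M) (V := 3 * M ^ 2) (V0 := V0) (P := P) (b := b)
      (c := C0 * S) hfr (by positivity) hV0 hbeB halB hb1 hbeb (by positivity) hL0 hL1 hS hle hP1 hpb
      (hsepS S hS n3) n1 (hδ.trans (Real.exp_le_exp.2 (by linarith))) hz
  have hz1 := step (m ^ 14) (m ^ 17) (Or.inl ⟨rfl, rfl⟩) hS0 (Nat.pow_le_pow_right hm0 (by norm_num)) hz0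
  have hz2 := step (m ^ 17) (m ^ 23) (Or.inr ⟨rfl, rfl⟩) (by positivity)
    (Nat.pow_le_pow_right hm0 (by norm_num)) hz1
  obtain ⟨i, hi, j, hj, hij⟩ := hpne
  exact hij (zero6 hal0 hroot hbe0 (Nat.pow_le_pow_right hm0 (by norm_num))
    (Nat.pow_le_pow_right hm0 (by norm_num)) hz2 i hi j hj)

end Pool.Agent.LGO.PS.E6
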